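import Mathlib
import Pool.Agent.D0H76.Q4.Dsc

/-!
Project BKR: descent over `ℚ` for the quadratic twists `y² = x³ + 2 m d² x`, `d ∣ m`, of `y² = x³ + 2 m x`.
-/

set_option autoImplicit false
set_option linter.unusedSectionVars false

open NumberField IsDedekindDomain

namespace Pool.Agent.D0H76.BKR

open Pool.Agent.Y682 (S1 S2 vv vv_coe IsT Zc Zc_card Zc_lower LL1 LL2 Sq quot_eq MP)
open Pool.Agent.Y715.Z (hens_odd)
open Pool.Agent.D0H76.Q4

section local_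

variable {L : Type} [Field L] {Γ : Type} [LinearOrderedCommGroupWithZero Γ] (w : Valuation L Γ)

/-- the local image at a place where the valuation of `D` is odd -/
lemma cls_odd (hens : ∀ t : L, w t < 1 → ∃ y : L, y ^ 2 = 1 + t) {D m : L} (hD0 : D ≠ 0)
    (hne : ∀ x : L, x ≠ 0 → w D ≠ w x ^ 2) (h : S1 0 D m) :
    ∃ c : L, c ≠ 0 ∧ (m = c ^ 2 ∨ m = D * c ^ 2) := by
  rcases h with h | h | ⟨hm, y, hy⟩
  · exact ⟨1, one_ne_zero, Or.inl (by rw [h, one_pow])⟩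
  · exact ⟨1, one_ne_zero, Or.inr (by rw [h, one_pow, mul_one])⟩
  · have hwm : w m ≠ 0 := (Valuation.ne_zero_iff _).2 hm
    have hwD : w D ≠ 0 := (Valuation.ne_zero_iff _).2 hD0
    rw [zero_mul, add_zero] at hy
    rcases lt_or_gt_of_ne (hne m hm) with h1 | h1
    · have ht : w (D / m ^ 2) < 1 := by
        rw [map_div₀, map_pow]
        rwa [div_lt_iff₀ (pow_pos (zero_lt_iff.2 hwm) 2), one_mul]
      obtain ⟨r, hr⟩ := hens _ ht
      have hr0 : r ≠ 0 := by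
        rintro rfl
        have h2 : D / m ^ 2 = -1 := by linear_combination -hr
        rw [h2, Valuation.map_neg, map_one] at ht
        exact lt_irrefl _ ht
      have h2 : (m * r) ^ 2 = m ^ 2 + D := by
        rw [mul_pow, hr]
        field_simp
      rw [← h2] at hy
      have hmr : m * r ≠ 0 := mul_ne_zero hm hr0
      have hy0 : y ≠ 0 := by
        rintro rfl
        rw [zero_pow two_ne_zero] at hy
        exact mul_ne_zero hm (pow_ne_zero 2 hmr) hy.symm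
      refine ⟨y / (m * r), div_ne_zero hy0 hmr, Or.inl ?_⟩
      rw [div_pow, hy]
      field_simp
    · have ht : w (m ^ 2 / D) < 1 := by
        rw [map_div₀, map_pow, div_lt_iff₀ (zero_lt_iff.2 hwD), one_mul]
        exact h1
      obtain ⟨r, hr⟩ := hens _ ht
      have hr0 : r ≠ 0 := by
        rintro rfl
        have h2 : m ^ 2 / D = -1 := by linear_combination -hr
        rw [h2, Valuation.map_neg, map_one] at ht
        exact lt_irrefl _ ht
      have h2 : D * r ^ 2 = m ^ 2 + D := by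
        rw [hr]
        field_simp
        ring
      rw [← h2] at hy
      have hDr : D * r ≠ 0 := mul_ne_zero hD0 hr0
      have hy0 : y ≠ 0 := by
        rintro rfl
        rw [zero_pow two_ne_zero] at hy
        exact mul_ne_zero hm (mul_ne_zero hD0 (pow_ne_zero 2 hr0)) hy.symm
      refine ⟨y / (D * r), div_ne_zero hy0 hDr, Or.inr ?_⟩
      rw [div_pow, hy]
      field_simp

end local_

/-- the condition at an odd prime dividing `B` once, for `B d²` -/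
lemma cls_LC {p : ℕ} {hp : p.Prime} [Fact p.Prime] (h2 : p ≠ 2) {B : ℤ} (hB : (p : ℤ) ∣ B)
    (hB2 : ¬ (p : ℤ) ^ 2 ∣ B) {d : ℕ} (hd : d ≠ 0) {b : ℚ} (h : LC p hp ((B * d ^ 2 : ℤ) : ℚ) b) :
    ∃ c : ℚ_[p], c ≠ 0 ∧ ((b : ℚ_[p]) = c ^ 2 ∨ (b : ℚ_[p]) = B * c ^ 2) := by
  obtain ⟨y, m, hy, hym, hm⟩ := h
  have hB0 : B ≠ 0 := by
    rintro rfl
    exact hB2 (dvd_zero _)
  have h2' : (vp p hp).valuation ℚ 2 = 1 := by
    have := val_one hp (m := 2) (fun h => by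
      have h3 : p ∣ 2 := by exact_mod_cast h
      exact h2 ((Nat.prime_dvd_prime_iff_eq hp Nat.prime_two).1 h3))
    exact_mod_cast this
  have hdq : ((d : ℚ)) ≠ 0 := Nat.cast_ne_zero.2 hd
  have hwB : vv (vp p hp) (algebraMap ℚ _ ((B * d ^ 2 : ℤ) : ℚ)) =
      WithZero.exp (-1 : ℤ) * ((vp p hp).valuation ℚ (d : ℚ)) ^ 2 := by
    rw [vv_coe]
    push_cast
    rw [map_mul, map_pow, val_exp hp hB hB2]
  have hBd : ((B * d ^ 2 : ℤ) : ℚ) ≠ 0 := by
    push_cast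
    exact mul_ne_zero (Int.cast_ne_zero.2 hB0) (pow_ne_zero 2 hdq)
  have hvd : (vp p hp).valuation ℚ (d : ℚ) ≠ 0 := (Valuation.ne_zero_iff _).2 hdq
  obtain ⟨c, hc, hmc⟩ := cls_odd (vv (vp p hp)) (fun t ht => hens_odd (vp p hp) h2' t ht)
    ((map_ne_zero _).2 hBd) (fun x hx h3 => by
      rw [hwB] at h3
      apply exp_sq (g := vv (vp p hp) x / (vp p hp).valuation ℚ (d : ℚ))
      rw [div_pow, ← h3]
      field_simp) hm
  have hy' : ph p hp y ≠ 0 := (map_ne_zero _).2 hy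
  have hc' : ph p hp c ≠ 0 := (map_ne_zero _).2 hc
  have hym' : (b : ℚ_[p]) * (ph p hp y) ^ 2 = ph p hp m := by
    rw [← hym, map_mul, map_pow, ph_rat]
  have hd' : (d : ℚ_[p]) ≠ 0 := Nat.cast_ne_zero.2 hd
  rcases hmc with h3 | h3
  · refine ⟨ph p hp c / ph p hp y, div_ne_zero hc' hy', Or.inl ?_⟩
    rw [h3, map_pow] at hym'
    field_simp
    exact hym'
  · refine ⟨d * ph p hp c / ph p hp y, div_ne_zero (mul_ne_zero hd' hc') hy', Or.inr ?_⟩
    rw [h3, map_mul, map_pow, ph_rat] at hym'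
    push_cast at hym'
    field_simp
    linear_combination hym'

variable {m : ℕ}

/-- **the Selmer groups** -/
theorem selT (hsq : Squarefree m) (h4 : ∀ p ∈ m.primeFactors, p % 4 = 1) (hdet : (mtQ m).det ≠ 0)
    {t : ℕ} (ht0 : t ≠ 0) (ht : ∀ p : ℕ, p.Prime → p ∣ t → p ∣ m) {B : ℤ} (hB : B = 2 * m ∨ B = -8 * m) {b : ℚ} (hb : b ≠ 0)
    (h : ∀ (p : ℕ) (hp : p.Prime), LC p hp ((B * t ^ 2 : ℤ) : ℚ) b) :
    ∃ c : ℚ, c ≠ 0 ∧ (b = c ^ 2 ∨ b = -c ^ 2 ∨ b = 2 * m * c ^ 2 ∨ b = -(2 * m * c ^ 2)) := by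
  classical
  obtain ⟨d, w, hd, hw, hbd⟩ := exists_sqf hb
  have hm0 : m ≠ 0 := hsq.ne_zero
  have hodd := m_odd hsq h4
  set D : ℕ := d.natAbs with hD
  have hDsq : Squarefree D := Int.squarefree_natAbs.2 hd
  have hD0 : D ≠ 0 := hDsq.ne_zero
  have hdvd : ∀ p : ℕ, p ∣ D ↔ (p : ℤ) ∣ d := fun p => by rw [hD, Int.natCast_dvd]
  set S : Finset ℕ := m.primeFactors.filter (fun q => q ∣ D) with hS
  have hSm : S ⊆ m.primeFactors := Finset.filter_subset _ _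
  obtain ⟨c, hc⟩ : ∃ c : ℕ, c = if 2 ∣ D then 1 else 0 := ⟨_, rfl⟩
  have hc01 : c = 0 ∨ c = 1 := by
    rw [hc]; split_ifs <;> simp
  have hpr : ∀ q ∈ m.primeFactors, q.Prime := fun q hq => Nat.prime_of_mem_primeFactors hq
  have hp2 : ∀ q ∈ m.primeFactors, q ≠ 2 := by
    intro q hq h
    have := h4 q hq
    rw [h] at this
    norm_num at this
  have hmprod : ∏ q ∈ m.primeFactors, q = m := Nat.prod_primeFactors_of_squarefree hsq
  have hDprod : D = 2 ^ c * ∏ q ∈ S, q := by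
    have h1 : ∏ q ∈ D.primeFactors, q = D := Nat.prod_primeFactors_of_squarefree hDsq
    have h2 : D.primeFactors = (if 2 ∣ D then {2} else ∅) ∪ S := by
      ext q
      rw [Finset.mem_union, Nat.mem_primeFactors]
      constructor
      · rintro ⟨hq, hqD, -⟩
        by_cases hq2 : q = 2
        · left
          subst hq2
          rw [if_pos hqD]
          exact Finset.mem_singleton_self _
        · right
          rw [hS, Finset.mem_filter, Nat.mem_primeFactors]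
          refine ⟨⟨hq, ?_, hm0⟩, hqD⟩
          by_contra hqm
          refine not_dvd_of_LC (hp := hq) (fun h' => ?_) hd hw hbd (h q hq) ((hdvd q).1 hqD)
          rcases (Nat.prime_iff_prime_int.1 hq).dvd_or_dvd h' with h'' | h''
          · exact hqm ((B_odd hsq hB hq hq2).1.1 h'')
          · exact hqm (ht q hq (by exact_mod_cast (Nat.prime_iff_prime_int.1 hq).dvd_of_dvd_pow h''))
      · rintro (h3 | h3)
        · split_ifs at h3 with h5
          · rw [Finset.mem_singleton] at h3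
            rw [h3]
            exact ⟨Nat.prime_two, h5, hD0⟩
          · exact absurd h3 (Finset.notMem_empty _)
        · rw [hS, Finset.mem_filter] at h3
          exact ⟨hpr q h3.1, h3.2, hD0⟩
    have hdis : Disjoint (if 2 ∣ D then ({2} : Finset ℕ) else ∅) S := by
      split_ifs
      · rw [Finset.disjoint_singleton_left]
        intro h3
        exact hp2 2 (hSm h3) rfl
      · exact Finset.disjoint_empty_left _
    rw [← h1, h2, Finset.prod_union hdis, hc]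
    congr 1
    split_ifs
    · rw [Finset.prod_singleton, pow_one]
    · rw [Finset.prod_empty, pow_zero]
  set T : Finset ℕ := m.primeFactors \ S with hT
  set d' : ℕ := 2 ^ (1 - c) * ∏ q ∈ T, q with hd'
  have hDd' : 2 * m = D * d' := by
    have e1 : (∏ q ∈ T, q) * ∏ q ∈ S, q = m := by rw [hT, Finset.prod_sdiff hSm, hmprod]
    have e2 : 2 ^ c * 2 ^ (1 - c) = 2 := by
      rcases hc01 with rfl | rfl <;> norm_num
    calc 2 * m = (2 ^ c * 2 ^ (1 - c)) * ((∏ q ∈ T, q) * ∏ q ∈ S, q) := by rw [e1, e2]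
      _ = (2 ^ c * ∏ q ∈ S, q) * d' := by rw [hd']; ring
      _ = D * d' := by rw [← hDprod]
  obtain ⟨σ, hσ, hdσ⟩ : ∃ σ : ℤ, (σ = 1 ∨ σ = -1) ∧ d = σ * D := by
    rcases Int.natAbs_eq d with h1 | h1
    · exact ⟨1, Or.inl rfl, by rw [one_mul]; exact h1⟩
    · exact ⟨-1, Or.inr rfl, by rw [neg_one_mul]; exact h1⟩
  obtain ⟨ε, hε, hBε⟩ : ∃ ε : ℤ, (ε = 1 ∨ ε = -4) ∧ B = ε * (2 * m) := by
    rcases hB with h1 | h1
    · exact ⟨1, Or.inl rfl, by rw [h1]; ring⟩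
    · exact ⟨-4, Or.inr rfl, by rw [h1]; ring⟩
  have hσ2 : σ * σ = 1 := by rcases hσ with rfl | rfl <;> norm_num
  -- the local conditions
  have key1 : ∀ p ∈ m.primeFactors, p ∉ S → nq p (2 ^ c * ∏ q ∈ S, q) = 0 := by
    intro p hp hpS
    have hpp := hpr p hp
    have : Fact p.Prime := ⟨hpp⟩
    have hpm : p ∣ m := Nat.dvd_of_mem_primeFactors hp
    have hpD : ¬ p ∣ D := fun h1 => hpS (by rw [hS, Finset.mem_filter]; exact ⟨hp, h1⟩)
    have hpd : ¬ (p : ℤ) ∣ d := fun h1 => hpD ((hdvd p).2 h1)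
    obtain ⟨hB1, hB2⟩ := B_odd hsq hB hpp (hp2 p hp)
    obtain ⟨c₀, hc₀, h1⟩ := cls_LC (hp2 p hp) (hB1.2 hpm) hB2 ht0 (h p hpp)
    have hwp : (w : ℚ_[p]) ≠ 0 := by exact_mod_cast hw
    have hbp : (b : ℚ_[p]) = d * (w : ℚ_[p]) ^ 2 := by rw [hbd]; push_cast; ring
    rw [← hDprod, nq_zero]
    rcases h1 with h1 | h1
    · have h3 : (d : ℚ_[p]) = (c₀ / w) ^ 2 := by
        rw [div_pow, ← h1, hbp]
        field_simp
      have h5 := sq_mod hpd h3
      have h6 := sqm (h4 p hp) (e := σ) (by rcases hσ with rfl | rfl <;> simp) (n := (D : ℤ))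
        (by rw [← hdσ]; exact h5)
      exact_mod_cast h6
    · exfalso
      have h3 : ((d * B : ℤ) : ℚ_[p]) = (B * c₀ / w) ^ 2 := by
        have h6 : (d : ℚ_[p]) * (w : ℚ_[p]) ^ 2 = B * c₀ ^ 2 := by rw [← hbp, h1]
        push_cast
        field_simp
        linear_combination (B : ℚ_[p]) * h6
      refine not_sq (p := p) ((hB1.2 hpm).mul_left _) ?_ _ h3
      intro h6
      have hcop : IsCoprime ((p : ℤ) ^ 2) d :=
        ((Nat.prime_iff_prime_int.1 hpp).coprime_iff_not_dvd.2 hpd).pow_left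
      exact hB2 (hcop.dvd_of_dvd_mul_left h6)
  have key2 : ∀ p ∈ S, nq p (2 ^ (1 - c) * ∏ q ∈ m.primeFactors \ S, q) = 0 := by
    intro p hpS
    have hp := hSm hpS
    have hpp := hpr p hp
    have : Fact p.Prime := ⟨hpp⟩
    have hpm : p ∣ m := Nat.dvd_of_mem_primeFactors hp
    have hpD : p ∣ D := (Finset.mem_filter.1 hpS).2
    have hpd : (p : ℤ) ∣ d := (hdvd p).1 hpD
    have hpd2 : ¬ (p : ℤ) ^ 2 ∣ d := sq_not_dvd hd hpp
    obtain ⟨hB1, hB2⟩ := B_odd hsq hB hpp (hp2 p hp)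
    obtain ⟨c₀, hc₀, h1⟩ := cls_LC (hp2 p hp) (hB1.2 hpm) hB2 ht0 (h p hpp)
    have hwp : (w : ℚ_[p]) ≠ 0 := by exact_mod_cast hw
    have hbp : (b : ℚ_[p]) = d * (w : ℚ_[p]) ^ 2 := by rw [hbd]; push_cast; ring
    rw [← hT, ← hd', nq_zero]
    rcases h1 with h1 | h1
    · exfalso
      have h3 : (d : ℚ_[p]) = (c₀ / w) ^ 2 := by
        rw [div_pow, ← h1, hbp]
        field_simp
      exact not_sq hpd hpd2 _ h3
    · have hDp : (D : ℚ_[p]) ≠ 0 := by exact_mod_cast hD0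
      have h6 : (σ : ℚ_[p]) * D * (w : ℚ_[p]) ^ 2 = (ε * (D * d')) * c₀ ^ 2 := by
        have e1 : (d : ℚ_[p]) = (σ : ℚ_[p]) * D := by rw [hdσ]; push_cast; ring
        have e2 : (B : ℚ_[p]) = (ε : ℚ_[p]) * (D * d') := by
          have e3 : (B : ℤ) = ε * ((D * d' : ℕ) : ℤ) := by rw [hBε, ← hDd']; push_cast; ring
          rw [e3]; push_cast; ring
        rw [← e1, ← e2, ← hbp, h1]
      have h7 : (σ : ℚ_[p]) * (w : ℚ_[p]) ^ 2 = ε * d' * c₀ ^ 2 := by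
        apply mul_left_cancel₀ hDp
        linear_combination h6
      have hσp : (σ : ℚ_[p]) * σ = 1 := by exact_mod_cast hσ2
      have h8 : (((σ * ε) * d' : ℤ) : ℚ_[p]) = (w / c₀) ^ 2 := by
        push_cast
        field_simp
        linear_combination (-(σ : ℚ_[p])) * h7 + (w : ℚ_[p]) ^ 2 * hσp
      have hpd' : ¬ p ∣ d' := by
        rw [hd']
        intro h9
        rcases hpp.dvd_mul.1 h9 with h10 | h10
        · exact hp2 p hp ((Nat.prime_dvd_prime_iff_eq hpp Nat.prime_two).1 (hpp.dvd_of_dvd_pow h10))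
        · refine not_dvd_prod hpp (fun q hq => hpr q (Finset.mem_sdiff.1 hq).1) ?_ h10
          exact fun h11 => (Finset.mem_sdiff.1 h11).2 hpS
      have he : σ * ε = 1 ∨ σ * ε = -1 ∨ σ * ε = 4 ∨ σ * ε = -4 := by
        rcases hσ with rfl | rfl <;> rcases hε with rfl | rfl <;> norm_num
      have hpe : ¬ (p : ℤ) ∣ (σ * ε) * d' := by
        intro h9
        rcases (Nat.prime_iff_prime_int.1 hpp).dvd_or_dvd h9 with h10 | h10
        · have h11 : (p : ℤ) ∣ 4 := by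
            rcases he with h12 | h12 | h12 | h12 <;> rw [h12] at h10
            · exact h10.trans (by norm_num)
            · exact h10.trans (by norm_num)
            · exact h10
            · exact h10.trans (by norm_num)
          have h12 : p ∣ 2 ^ 2 := by exact_mod_cast h11
          exact hp2 p hp ((Nat.prime_dvd_prime_iff_eq hpp Nat.prime_two).1 (hpp.dvd_of_dvd_pow h12))
        · exact hpd' (by exact_mod_cast h10)
      have h9 := sqm (h4 p hp) he (sq_mod hpe h8)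
      exact_mod_cast h9
  have hdq : (d : ℚ) = σ * D := by rw [hdσ]; push_cast; ring
  refine ⟨w, hw, ?_⟩
  rcases sel_lin h4 hdet hc01 hSm key1 key2 with ⟨h1, h2⟩ | ⟨h1, h2⟩
  · have hD1 : D = 1 := by rw [hDprod, h1, h2, Finset.prod_empty]; norm_num
    rw [hD1, Nat.cast_one, mul_one] at hdq
    rw [hbd, hdq]
    rcases hσ with rfl | rfl
    · left; push_cast; ring
    · right; left; push_cast; ring
  · have hD1 : D = 2 * m := by rw [hDprod, h1, h2, hmprod]; norm_num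
    rw [hD1] at hdq
    rw [hbd, hdq]
    push_cast
    rcases hσ with rfl | rfl
    · right; right; left; push_cast; ring
    · right; right; right; push_cast; ring


/-- the first Selmer group -/
theorem sel1T (hsq : Squarefree m) (h4 : ∀ p ∈ m.primeFactors, p % 4 = 1) (hdet : (mtQ m).det ≠ 0)
    {t : ℕ} (ht0 : t ≠ 0) (ht : ∀ p : ℕ, p.Prime → p ∣ t → p ∣ m) {b : ℚ} (hb : b ≠ 0) (h : LL1 (0 : ℚ) (2 * m * t ^ 2) b) : ∃ c : ℚ, c ≠ 0 ∧ (b = c ^ 2 ∨ b = 2 * m * c ^ 2) := by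
  have hm0 : (0 : ℚ) < m := by exact_mod_cast Nat.pos_of_ne_zero hsq.ne_zero
  have ht0' : (0 : ℚ) < t := by exact_mod_cast Nat.pos_of_ne_zero ht0
  have hB0 : (0 : ℚ) < 2 * m * t ^ 2 := by positivity
  have hpos : 0 < b := by
    have := Pool.Agent.Y682.pos_b1 (A := (0 : ℚ)) (B := 2 * m * t ^ 2) (b := b) h.2 (algebraMap ℚ ℝ) (by
      show (0 : ℝ) < algebraMap ℚ ℝ (2 * m * t ^ 2)
      rw [eq_ratCast]
      exact_mod_cast hB0) (Or.inr (by
      rw [map_zero, zero_pow two_ne_zero, eq_ratCast]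
      have : (0 : ℚ) < 4 * (2 * m * t ^ 2) := by linarith
      exact_mod_cast this))
    rw [eq_ratCast] at this
    exact_mod_cast this
  obtain ⟨c, hc, h1⟩ := selT hsq h4 hdet ht0 ht (B := 2 * m) (Or.inl rfl) hb (fun p hp => by
    have := h.1 (vp p hp)
    rw [map_zero] at this
    have e : ((2 * m * t ^ 2 : ℤ) : ℚ) = 2 * (m : ℚ) * t ^ 2 := by push_cast; ring
    unfold LC
    rw [e]
    exact this)
  have hc2 : 0 < c ^ 2 := by positivity
  refine ⟨c, hc, ?_⟩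
  rcases h1 with h1 | h1 | h1 | h1
  · exact Or.inl h1
  · exfalso
    rw [h1] at hpos
    linarith
  · exact Or.inr h1
  · exfalso
    rw [h1] at hpos
    have : 0 < 2 * m * c ^ 2 := by positivity
    linarith

/-- the second Selmer group -/
theorem sel2T (hsq : Squarefree m) (h4 : ∀ p ∈ m.primeFactors, p % 4 = 1) (hdet : (mtQ m).det ≠ 0)
    {t : ℕ} (ht0 : t ≠ 0) (ht : ∀ p : ℕ, p.Prime → p ∣ t → p ∣ m) {b : ℚ} (hb : b ≠ 0) (h : LL2 (0 : ℚ) (2 * m * t ^ 2) b) :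
    ∃ c : ℚ, c ≠ 0 ∧ (b = c ^ 2 ∨ b = -(2 * m * c ^ 2)) := by
  have hm0 : (m : ℚ) ≠ 0 := by exact_mod_cast hsq.ne_zero
  have hLC : ∀ (p : ℕ) (hp : p.Prime), LC p hp ((-8 * m * t ^ 2 : ℤ) : ℚ) b := by
    intro p hp
    obtain ⟨z, n, hz, hzn, hn⟩ := h.1 (vp p hp)
    refine ⟨z, n, hz, hzn, ?_⟩
    have e : algebraMap ℚ ((vp p hp).adicCompletion ℚ) ((-8 * m * t ^ 2 : ℤ) : ℚ) =
        algebraMap ℚ _ 0 ^ 2 - 4 * algebraMap ℚ _ (2 * (m : ℚ) * t ^ 2) := by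
      push_cast
      simp only [map_mul, map_neg, map_ofNat, map_natCast, map_zero, map_pow]
      ring
    rcases hn with hn | hn | ⟨hn, y, hy⟩
    · exact Or.inl hn
    · exact Or.inr (Or.inl (by rw [e]; exact hn))
    · refine Or.inr (Or.inr ⟨hn, y, ?_⟩)
      rw [e, hy, map_zero]
      ring
  obtain ⟨c, hc, h1⟩ := selT hsq h4 hdet ht0 ht (B := -8 * m) (Or.inr rfl) hb hLC
  have hM : ((m : ℤ) * t ^ 2) % 2 = 1 := by
    have h5 := m_odd hsq h4
    have h6 : ¬ 2 ∣ t := fun h7 => h5 (ht 2 Nat.prime_two h7)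
    have h7 : Odd ((m : ℤ) * t ^ 2) := by
      refine Odd.mul ?_ (Odd.pow ?_)
      · exact_mod_cast Nat.odd_iff.2 (by omega)
      · exact_mod_cast Nat.odd_iff.2 (by omega)
    exact Int.odd_iff.1 h7
  have h2 : Fact (Nat.Prime 2) := ⟨Nat.prime_two⟩
  obtain ⟨z, n, hz, hzn, hn⟩ := LC_padic (hLC 2 Nat.prime_two)
  have hc2 : (c : ℚ_[2]) ≠ 0 := by exact_mod_cast hc
  have hm2 : (m : ℚ_[2]) ≠ 0 := by exact_mod_cast hsq.ne_zero
  have ht2 : (t : ℚ_[2]) ≠ 0 := by exact_mod_cast ht0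
  have e : (((-8 * m * t ^ 2 : ℤ) : ℚ) : ℚ_[2]) = ((-(8 * ((m : ℤ) * t ^ 2)) : ℤ) : ℚ_[2]) := by
    push_cast; ring
  rw [e] at hn
  refine ⟨c, hc, ?_⟩
  rcases h1 with h1 | h1 | h1 | h1
  · exact Or.inl h1
  · exfalso
    apply no_neg hM (s := c * z) (mul_ne_zero hc2 hz)
    have : n = -((c : ℚ_[2]) * z) ^ 2 := by
      rw [← hzn, h1]
      push_cast
      ring
    rw [← this]
    exact hn
  · exfalso
    apply no_neg hM (s := 2 * t / (c * z)) (div_ne_zero (mul_ne_zero two_ne_zero ht2)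
      (mul_ne_zero hc2 hz))
    have h3 := S1_inv (by
      push_cast
      exact neg_ne_zero.2 (mul_ne_zero (by norm_num) (mul_ne_zero hm2 (pow_ne_zero 2 ht2)))) hn
    have : ((-(8 * ((m : ℤ) * t ^ 2)) : ℤ) : ℚ_[2]) / n = -(2 * t / ((c : ℚ_[2]) * z)) ^ 2 := by
      rw [← hzn, h1]
      push_cast
      field_simp
      ring
    rw [← this]
    exact h3
  · exact Or.inr h1

section
variable {W : WeierstrassCurve ℚ}

/-- the count -/
theorem countT (hsq : Squarefree m) (h4 : ∀ p ∈ m.primeFactors, p % 4 = 1) (hdet : (mtQ m).det ≠ 0)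
    {t : ℕ} (ht0 : t ≠ 0) (ht : ∀ p : ℕ, p.Prime → p ∣ t → p ∣ m) (hT : IsT W (0 : ℚ) (2 * m * t ^ 2)) : Module.finrank ℤ (MP W) = 0 ∧
      ∀ x : Pool.Agent.TH841.NF.D.Sha W, 2 • x = 0 → x = 0 := by
  classical
  have hm0 : (m : ℚ) ≠ 0 := by exact_mod_cast hsq.ne_zero
  have h2m : (2 * m : ℚ) ≠ 0 := mul_ne_zero two_ne_zero hm0
  have h2m' : (-(2 * m) : ℚ) ≠ 0 := neg_ne_zero.2 h2m
  have pair : ∀ D : ℚ, D ≠ 0 → ∃ U : Set (ℚˣ ⧸ Sq ℚ), Finite U ∧ Nat.card U ≤ 2 ∧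
      (1 : ℚˣ ⧸ Sq ℚ) ∈ U ∧ ∀ b : ℚˣ, (∃ c : ℚ, c ≠ 0 ∧ ((b : ℚ) = c ^ 2 ∨ (b : ℚ) = D * c ^ 2)) →
        (b : ℚˣ ⧸ Sq ℚ) ∈ U := by
    intro D hD0
    let U : Set (ℚˣ ⧸ Sq ℚ) := {(1 : ℚˣ ⧸ Sq ℚ), ((Units.mk0 D hD0 : ℚˣ) : ℚˣ ⧸ Sq ℚ)}
    have hUf : U.Finite := Set.toFinite U
    refine ⟨U, hUf.to_subtype, ?_, Or.inl rfl, ?_⟩
    · have h1 : U.ncard ≤ 2 := by
        refine (Set.ncard_insert_le _ _).trans ?_
        rw [Set.ncard_singleton]
      exact h1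
    · rintro b ⟨c, hc0, hc⟩
      rcases hc with hc | hc
      · left
        have h1 : (1 : ℚˣ ⧸ Sq ℚ) = ((1 : ℚˣ) : ℚˣ ⧸ Sq ℚ) := rfl
        rw [h1, eq_comm, quot_eq]
        refine ⟨Units.mk0 c hc0, Units.ext ?_⟩
        rw [Units.val_mul, Units.val_one, one_mul, Units.val_pow_eq_pow_val, Units.val_mk0, hc]
      · right
        show (b : ℚˣ ⧸ Sq ℚ) = ((Units.mk0 D hD0 : ℚˣ) : ℚˣ ⧸ Sq ℚ)
        rw [eq_comm, quot_eq]
        refine ⟨Units.mk0 c hc0, Units.ext ?_⟩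
        rw [Units.val_mul, Units.val_pow_eq_pow_val, Units.val_mk0, Units.val_mk0, hc]
  obtain ⟨U, hUf, hU2, hU1, hU⟩ := pair _ h2m
  obtain ⟨V, hVf, hV2, hV1, hV⟩ := pair _ h2m'
  have H1 : ∀ b : ℚˣ, LL1 (0 : ℚ) (2 * m * t ^ 2) (b : ℚ) → (b : ℚˣ ⧸ Sq ℚ) ∈ U := fun b hb =>
    hU b (sel1T hsq h4 hdet ht0 ht b.ne_zero hb)
  have H2 : ∀ b : ℚˣ, LL2 (0 : ℚ) (2 * m * t ^ 2) (b : ℚ) → (b : ℚˣ ⧸ Sq ℚ) ∈ V := fun b hb => by
    apply hV b
    obtain ⟨c, hc, h1⟩ := sel2T hsq h4 hdet ht0 ht b.ne_zero hb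
    refine ⟨c, hc, ?_⟩
    rcases h1 with h1 | h1
    · exact Or.inl h1
    · exact Or.inr (by rw [h1]; ring)
  obtain ⟨hf, hc⟩ := Zc_card hT (U := U) (V := V) hV1 H1 H2
  obtain ⟨h3, h4'⟩ := Zc_lower hT
  have h6 : Nat.card (Zc W) ≤ 4 := hc.trans (by nlinarith)
  have h8 := h4'.trans h6
  have hne : Nonempty {x : Pool.Agent.TH841.NF.D.Sha W // 2 • x = 0} := ⟨⟨0, smul_zero _⟩⟩
  have h9 : 1 ≤ Nat.card {x : Pool.Agent.TH841.NF.D.Sha W // 2 • x = 0} := Nat.card_pos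
  have h7 : 1 ≤ 2 ^ (Module.finrank ℤ (MP W)) := Nat.one_le_two_pow
  constructor
  · by_contra hr
    have h10 : 2 ≤ 2 ^ (Module.finrank ℤ (MP W)) := by
      calc 2 = 2 ^ 1 := (pow_one 2).symm
        _ ≤ 2 ^ (Module.finrank ℤ (MP W)) := Nat.pow_le_pow_right two_pos (Nat.pos_of_ne_zero hr)
    nlinarith
  · have h5 : Nat.card {x : Pool.Agent.TH841.NF.D.Sha W // 2 • x = 0} ≤ 1 := by nlinarith
    have h6 : Subsingleton {x : Pool.Agent.TH841.NF.D.Sha W // 2 • x = 0} :=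
      Finite.card_le_one_iff_subsingleton.1 h5
    intro x hx
    have h7 := @Subsingleton.elim _ h6 ⟨x, hx⟩ ⟨0, smul_zero _⟩
    exact congrArg Subtype.val h7

end

end Pool.Agent.D0H76.BKR
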