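import Pool.Agent.D0H69.UC.Ext

/-!
Project BKR: the rational points of a curve over `k` and over a finite extension of `k`.
-/

set_option autoImplicit false
set_option linter.unusedVariables false
set_option linter.unusedSectionVars false

open Finset IntermediateField
open Pool.Agent.D0H69.UC (Pts exists_ext)

namespace Pool.Agent.D0H76.BKR

section

variable {k K F₀ F : Type} [Field k] [Field K] [Field F₀] [Field F] [Algebra k K] [Algebra k F₀]
  [Algebra F₀ F] [Algebra K F] [Algebra k F] [IsScalarTower k F₀ F] [IsScalarTower k K F]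
  [FiniteDimensional k K]

/-- the compositum is generated as a vector space by the constants -/
theorem span_consts {ι : Type} [Fintype ι] (b : Module.Basis ι k K)
    (hF : IntermediateField.adjoin F₀ (Set.range (algebraMap K F)) = ⊤) (f : F) :
    ∃ p : ι → F₀, f = ∑ i, algebraMap F₀ F (p i) * algebraMap K F (b i) := by
  have halg : ∀ x ∈ Set.range (algebraMap K F), IsAlgebraic F₀ x := by
    rintro _ ⟨c, rfl⟩
    have h1 : IsAlgebraic k c := Algebra.IsAlgebraic.isAlgebraic c
    have h2 : IsAlgebraic k (algebraMap K F c) := h1.algebraMap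
    exact h2.tower_top F₀
  have h1 : Algebra.adjoin F₀ (Set.range (algebraMap K F)) = ⊤ := by
    rw [← IntermediateField.adjoin_toSubalgebra_of_isAlgebraic halg, hF]
    rfl
  have h2 : f ∈ Submodule.span F₀ (Set.range (algebraMap K F)) := by
    have h3 : f ∈ Subalgebra.toSubmodule (Algebra.adjoin F₀ (Set.range (algebraMap K F))) := by
      rw [h1]
      exact (Algebra.mem_top : f ∈ (⊤ : Subalgebra F₀ F))
    rw [Algebra.adjoin_eq_span] at h3
    have h4 : Submonoid.closure (Set.range (algebraMap K F)) ≤
        MonoidHom.mrange (algebraMap K F : K →* F) := by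
      rw [Submonoid.closure_le]
      rintro _ ⟨c, rfl⟩
      exact ⟨c, rfl⟩
    refine Submodule.span_mono ?_ h3
    intro x hx
    exact h4 hx
  induction h2 using Submodule.span_induction with
  | mem x hx =>
    obtain ⟨c, rfl⟩ := hx
    refine ⟨fun i => algebraMap k F₀ (b.repr c i), ?_⟩
    conv_lhs => rw [← b.sum_repr c, map_sum]
    refine Finset.sum_congr rfl fun i _ => ?_
    rw [Algebra.smul_def, map_mul, ← IsScalarTower.algebraMap_apply, ← IsScalarTower.algebraMap_apply]
  | zero => exact ⟨0, by simp⟩
  | add x y _ _ hx hy =>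
    obtain ⟨p, rfl⟩ := hx
    obtain ⟨q, rfl⟩ := hy
    refine ⟨p + q, ?_⟩
    rw [← Finset.sum_add_distrib]
    refine Finset.sum_congr rfl fun i _ => ?_
    rw [Pi.add_apply, map_add]
    ring
  | smul a x _ hx =>
    obtain ⟨p, rfl⟩ := hx
    refine ⟨a • p, ?_⟩
    rw [Algebra.smul_def, Finset.mul_sum]
    refine Finset.sum_congr rfl fun i _ => ?_
    rw [Pi.smul_apply, smul_eq_mul, map_mul]
    ring

/-- the constants are integral -/
theorem const_mem {W : ValuationSubring F} (hk : ∀ c : k, algebraMap k F c ∈ W) (c : K) :
    algebraMap K F c ∈ W := by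
  let g : k →+* W := (algebraMap k F).codRestrict W.toSubring hk
  have h1 : IsIntegral k c := Algebra.IsIntegral.isIntegral c
  obtain ⟨p, hp, hp0⟩ := h1
  have h2 : IsIntegral W (algebraMap K F c) := by
    refine ⟨p.map g, hp.map g, ?_⟩
    rw [Polynomial.eval₂_map]
    have e : (algebraMap W F).comp g = (algebraMap K F).comp (algebraMap k K) := by
      ext x
      show algebraMap k F x = algebraMap K F (algebraMap k K x)
      exact IsScalarTower.algebraMap_apply k K F x
    rw [e, ← Polynomial.hom_eval₂, hp0, map_zero]
  obtain ⟨y, hy⟩ := IsIntegrallyClosed.algebraMap_eq_of_integral h2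
  rw [← hy]
  exact y.2

theorem const_unit {W : ValuationSubring F} (hk : ∀ c : k, algebraMap k F c ∈ W) {c : K} (hc : c ≠ 0) :
    W.valuation (algebraMap K F c) = 1 := by
  apply le_antisymm ((W.valuation_le_one_iff _).2 (const_mem hk c))
  have h4 := (W.valuation_le_one_iff _).2 (const_mem hk c⁻¹)
  rw [map_inv₀, map_inv₀] at h4
  have h5 : 0 < W.valuation (algebraMap K F c) :=
    zero_lt_iff.2 ((Valuation.ne_zero_iff _).2 ((map_ne_zero _).2 hc))
  exact (inv_le_one₀ h5).1 h4

/-- The residue field of the extension of a place of degree one to a constant extension. -/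
theorem pts_ext (hF : IntermediateField.adjoin F₀ (Set.range (algebraMap K F)) = ⊤)
    {R : ValuationSubring F₀} (hR : R ∈ Pts k F₀) {W : ValuationSubring F}
    (h1 : ∀ z ∈ R, algebraMap F₀ F z ∈ W)
    (h2 : ∀ z : F₀, R.valuation z < 1 → W.valuation (algebraMap F₀ F z) < 1)
    (h3 : ∀ z : F₀, algebraMap F₀ F z ∈ W → z ∈ R) : W ∈ Pts K F := by
  have hk : ∀ c : k, algebraMap k F c ∈ W := by
    intro c
    rw [IsScalarTower.algebraMap_apply k F₀ F]
    exact h1 _ (hR.1 c)
  let b := Module.finBasis k K
  refine ⟨const_mem hk, ?_, fun r hr => ?_⟩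
  · intro hW
    apply hR.2.1
    ext t
    simp only [ValuationSubring.mem_top, iff_true]
    exact h3 t (by rw [hW]; exact ValuationSubring.mem_top _)
  · obtain ⟨p, hp⟩ := span_consts b hF r
    -- the coefficients are in `R`
    have key : ∀ i, p i ∈ R := by
      by_contra hc
      push Not at hc
      obtain ⟨i0, hi0⟩ := hc
      have hne : (Finset.univ : Finset (Fin (Module.finrank k K))).Nonempty := ⟨i0, Finset.mem_univ _⟩
      obtain ⟨j, -, hj⟩ := Finset.exists_max_image Finset.univ (fun i => R.valuation (p i)) hne
      have hj1 : p j ∉ R := by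
        intro h
        apply hi0
        rw [← R.valuation_le_one_iff] at h ⊢
        exact (hj i0 (Finset.mem_univ _)).trans h
      have hpj : p j ≠ 0 := by
        intro h
        exact hj1 (by rw [h]; exact R.zero_mem)
      have hpjF : algebraMap F₀ F (p j) ≠ 0 := (map_ne_zero _).2 hpj
      have hv : ∀ i, ∃ a : k, R.valuation (p i / p j - algebraMap k F₀ a) < 1 := by
        intro i
        apply hR.2.2
        rw [← R.valuation_le_one_iff, map_div₀]
        exact div_le_one_of_le₀ (hj i (Finset.mem_univ _)) zero_le
      choose a ha using hv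
      have haj : a j ≠ 0 := by
        intro h
        have h4 := ha j
        rw [h, map_zero, sub_zero, div_self hpj, map_one] at h4
        exact lt_irrefl _ h4
      set α : K := ∑ i, a i • b i with hα
      have hα0 : α ≠ 0 := by
        intro h
        have h4 := Fintype.linearIndependent_iff.1 b.linearIndependent a h j
        exact haj h4
      have h5 : W.valuation (algebraMap K F α) = 1 := const_unit hk hα0
      have e : algebraMap K F α = (algebraMap F₀ F (p j))⁻¹ * r -
          ∑ i, algebraMap F₀ F (p i / p j - algebraMap k F₀ (a i)) * algebraMap K F (b i) := by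
        rw [hp, hα, map_sum, Finset.mul_sum, ← Finset.sum_sub_distrib]
        refine Finset.sum_congr rfl fun i _ => ?_
        rw [Algebra.smul_def, map_mul, map_sub, map_div₀, ← IsScalarTower.algebraMap_apply,
          ← IsScalarTower.algebraMap_apply]
        field_simp
        ring
      have h6 : W.valuation (algebraMap K F α) < 1 := by
        rw [e]
        apply Valuation.map_sub_lt
        · rw [map_mul]
          have h7 : W.valuation (algebraMap F₀ F (p j))⁻¹ < 1 := by
            rw [← map_inv₀]
            apply h2
            rw [map_inv₀]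
            apply inv_lt_one_of_one_lt₀
            rw [← not_le, R.valuation_le_one_iff]
            exact hj1
          have h8 : W.valuation r ≤ 1 := (W.valuation_le_one_iff _).2 hr
          exact lt_of_le_of_lt (mul_le_mul_right h8 _) (by rw [mul_one]; exact h7)
        · refine Valuation.map_sum_lt _ one_ne_zero fun i _ => ?_
          rw [map_mul]
          exact lt_of_le_of_lt (mul_le_mul_right ((W.valuation_le_one_iff _).2 (const_mem hk (b i))) _)
            (by rw [mul_one]; exact h2 _ (ha i))
      rw [h5] at h6
      exact lt_irrefl _ h6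
    have hv : ∀ i, ∃ a : k, R.valuation (p i - algebraMap k F₀ a) < 1 := fun i => hR.2.2 _ (key i)
    choose a ha using hv
    refine ⟨∑ i, a i • b i, ?_⟩
    have e : r - algebraMap K F (∑ i, a i • b i) =
        ∑ i, algebraMap F₀ F (p i - algebraMap k F₀ (a i)) * algebraMap K F (b i) := by
      rw [hp, map_sum, ← Finset.sum_sub_distrib]
      refine Finset.sum_congr rfl fun i _ => ?_
      rw [Algebra.smul_def, map_mul, map_sub, ← IsScalarTower.algebraMap_apply,
        ← IsScalarTower.algebraMap_apply]
      ring
    rw [e]
    refine Valuation.map_sum_lt _ one_ne_zero fun i _ => ?_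
    rw [map_mul]
    exact lt_of_le_of_lt (mul_le_mul_right ((W.valuation_le_one_iff _).2 (const_mem hk (b i))) _)
      (by rw [mul_one]; exact h2 _ (ha i))

/-- **A curve over `k` has at most as many rational points over `k` as over `K`.** -/
theorem pts_le (hF : IntermediateField.adjoin F₀ (Set.range (algebraMap K F)) = ⊤)
    (hfin : (Pts K F).Finite) : (Pts k F₀).Finite ∧ (Pts k F₀).ncard ≤ (Pts K F).ncard := by
  choose f hf1 hf2 hf3 using exists_ext (F₀ := F₀) (F := F)
  have hmap : Set.MapsTo f (Pts k F₀) (Pts K F) := fun R hR => pts_ext hF hR (hf1 R) (hf2 R) (hf3 R)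
  have hinj : Set.InjOn f (Pts k F₀) := by
    intro R hR R' hR' he
    ext t
    constructor
    · intro ht
      exact hf3 R' t (he ▸ hf1 R t ht)
    · intro ht
      exact hf3 R t (he.symm ▸ hf1 R' t ht)
  exact ⟨Set.Finite.of_injOn hmap hinj hfin, Set.ncard_le_ncard_of_injOn f hmap hinj hfin⟩

end

end Pool.Agent.D0H76.BKR
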