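import Mathlib
import Pool.Agent.TH841.NF.Th2
import Pool.Agent.Y682.Rk

/-!
Project BKR: the points over a multiquadratic field are torsion if this holds for the quadratic twists
over `ℚ`.
-/

set_option autoImplicit false
set_option linter.unusedSectionVars false

attribute [-instance] DivisionRing.toRatAlgebra

open WeierstrassCurve
open Pool.Agent.TH841.NF
open Pool.Agent.TH841.SH.D (Pt act)

namespace Pool.Agent.D0H76.BKR

section galois

variable {F : Type} [Field F] [Algebra ℚ F] {n : ℕ} {r : Fin n → F} {d : Fin n → ℚ}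
  (hr : ∀ i, r i ^ 2 = algebraMap ℚ F (d i))
  (hgen : IntermediateField.adjoin ℚ (Set.range r) = ⊤)

include hr hgen in
/-- a field generated by square roots of rational numbers is Galois over `ℚ` -/
lemma isGalois_of_gen : IsGalois ℚ F := by
  have h1 : ∀ i, IsIntegral ℚ (r i) ∧ ((minpoly ℚ (r i)).map (algebraMap ℚ F)).Splits := by
    intro i
    have hmon : (Polynomial.X ^ 2 - Polynomial.C (d i) : Polynomial ℚ).Monic :=
      Polynomial.monic_X_pow_sub_C _ two_ne_zero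
    have hev : Polynomial.aeval (r i) (Polynomial.X ^ 2 - Polynomial.C (d i) : Polynomial ℚ) = 0 := by
      rw [map_sub, map_pow, Polynomial.aeval_X, Polynomial.aeval_C, hr, sub_self]
    refine ⟨⟨_, hmon, hev⟩, ?_⟩
    have hdvd : (minpoly ℚ (r i)).map (algebraMap ℚ F) ∣
        (Polynomial.X ^ 2 - Polynomial.C (d i) : Polynomial ℚ).map (algebraMap ℚ F) :=
      Polynomial.map_dvd _ (minpoly.dvd ℚ (r i) hev)
    refine Polynomial.Splits.of_dvd ?_ ?_ hdvd
    · have e : (Polynomial.X ^ 2 - Polynomial.C (d i) : Polynomial ℚ).map (algebraMap ℚ F) =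
          (Polynomial.X - Polynomial.C (r i)) * (Polynomial.X - Polynomial.C (-r i)) := by
        rw [Polynomial.map_sub, Polynomial.map_pow, Polynomial.map_X, Polynomial.map_C, ← hr]
        simp only [map_neg, map_pow]
        ring
      rw [e]
      exact (Polynomial.Splits.X_sub_C _).mul (Polynomial.Splits.X_sub_C _)
    · exact (hmon.map _).ne_zero
  have hn : Normal ℚ F := by
    have halg : ∀ x : F, IsIntegral ℚ x ∧ ((minpoly ℚ x).map (algebraMap ℚ F)).Splits := by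
      intro x
      have hx : x ∈ IntermediateField.adjoin ℚ (Set.range r) := by
        rw [hgen]
        exact IntermediateField.mem_top
      refine ⟨?_, ?_⟩
      · have := IntermediateField.isAlgebraic_adjoin (K := ℚ) (S := Set.range r)
          (by rintro _ ⟨i, rfl⟩; exact (h1 i).1)
        have h2 := this.isAlgebraic (⟨x, hx⟩ : IntermediateField.adjoin ℚ (Set.range r))
        have h3 : IsIntegral ℚ (⟨x, hx⟩ : IntermediateField.adjoin ℚ (Set.range r)) := h2.isIntegral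
        exact h3.map (IntermediateField.val _)
      · refine IntermediateField.splits_of_mem_adjoin ℚ F (S := Set.range r) ?_ hx
        rintro _ ⟨i, rfl⟩
        exact h1 i
    exact normal_iff.2 halg
  exact ⟨⟩

end galois

section sgn

variable {F : Type} [Field F] [Algebra ℚ F] {r : F} {d : ℚ}

open Classical in
/-- the sign -/
noncomputable def sgn (r : F) (τ : F ≃ₐ[ℚ] F) : ℤ := if τ r = r then 1 else -1

lemma sgn_pm (r : F) (τ : F ≃ₐ[ℚ] F) : sgn r τ = 1 ∨ sgn r τ = -1 := by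
  unfold sgn
  split_ifs
  · exact Or.inl rfl
  · exact Or.inr rfl

lemma sgn_sq (r : F) (τ : F ≃ₐ[ℚ] F) : sgn r τ * sgn r τ = 1 := by
  rcases sgn_pm r τ with h | h <;> rw [h] <;> norm_num

lemma sgn_spec (hr : r ^ 2 = algebraMap ℚ F d) (τ : F ≃ₐ[ℚ] F) : τ r = (sgn r τ : F) * r := by
  unfold sgn
  split_ifs with h
  · rw [h, Int.cast_one, one_mul]
  · have h1 : τ r ^ 2 = r ^ 2 := by rw [← map_pow, hr, AlgEquiv.commutes]
    rcases sq_eq_sq_iff_eq_or_eq_neg.1 h1 with h2 | h2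
    · exact absurd h2 h
    · rw [h2]
      push_cast
      ring

end sgn

section main

variable {F : Type} [Field F] [Algebra ℚ F] {n : ℕ} {r : Fin n → F} {d : Fin n → ℚ}
  (hr : ∀ i, r i ^ 2 = algebraMap ℚ F (d i)) (hd : ∀ i, d i ≠ 0)
  (hgen : IntermediateField.adjoin ℚ (Set.range r) = ⊤)

/-- the character -/
noncomputable def sT (r : Fin n → F) (T : Finset (Fin n)) (τ : F ≃ₐ[ℚ] F) : ℤ := ∏ i ∈ T, sgn (r i) τ

lemma sT_pm (T : Finset (Fin n)) (τ : F ≃ₐ[ℚ] F) : sT r T τ = 1 ∨ sT r T τ = -1 := by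
  unfold sT
  induction T using Finset.cons_induction with
  | empty => left; rw [Finset.prod_empty]
  | cons i T hi ih =>
    rw [Finset.prod_cons]
    rcases sgn_pm (r i) τ with h | h <;> rcases ih with h' | h' <;> rw [h, h'] <;> norm_num

include hr in
lemma sT_spec (T : Finset (Fin n)) (τ : F ≃ₐ[ℚ] F) :
    τ (∏ i ∈ T, r i) = (sT r T τ : F) * ∏ i ∈ T, r i := by
  unfold sT
  rw [map_prod, Int.cast_prod, ← Finset.prod_mul_distrib]
  exact Finset.prod_congr rfl fun i _ => sgn_spec (hr i) τ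

include hr hd in
lemma r_ne (i : Fin n) : r i ≠ 0 := by
  intro h
  have h1 := hr i
  rw [h, zero_pow two_ne_zero, eq_comm, map_eq_zero] at h1
  exact hd i h1

include hr hd in
lemma prod_ne (T : Finset (Fin n)) : ∏ i ∈ T, r i ≠ 0 :=
  Finset.prod_ne_zero_iff.2 fun i _ => r_ne hr hd i

include hr in
lemma prod_sq' (T : Finset (Fin n)) : (∏ i ∈ T, r i) ^ 2 = algebraMap ℚ F (∏ i ∈ T, d i) := by
  rw [← Finset.prod_pow, map_prod]
  exact Finset.prod_congr rfl fun i _ => hr i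

include hr hd in
lemma sT_mul [CharZero F] (T : Finset (Fin n)) (σ τ : F ≃ₐ[ℚ] F) :
    sT r T (σ * τ) = sT r T σ * sT r T τ := by
  have h1 : (σ * τ) (∏ i ∈ T, r i) = σ (τ (∏ i ∈ T, r i)) := rfl
  rw [sT_spec hr T (σ * τ), sT_spec hr T τ, map_mul, map_intCast, sT_spec hr T σ, ← mul_assoc] at h1
  have h2 := mul_right_cancel₀ (prod_ne hr hd T) h1
  have h3 : ((sT r T (σ * τ) : ℤ) : F) = ((sT r T σ * sT r T τ : ℤ) : F) := by
    rw [h2]; push_cast; ring
  exact_mod_cast h3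

/-- the orthogonality relation -/
lemma sum_sT (τ : F ≃ₐ[ℚ] F) : ∑ T : Finset (Fin n), sT r T τ = ∏ i, (1 + sgn (r i) τ) := by
  have h := Finset.prod_one_add (s := (Finset.univ : Finset (Fin n))) (f := fun i => sgn (r i) τ)
  rw [h, Finset.powerset_univ]
  rfl

lemma sum_one : ∑ T : Finset (Fin n), sT r T (1 : F ≃ₐ[ℚ] F) = 2 ^ n := by
  rw [sum_sT]
  have h : ∀ i : Fin n, (1 + sgn (r i) (1 : F ≃ₐ[ℚ] F)) = 2 := by
    intro i
    unfold sgn
    rw [if_pos (AlgEquiv.one_apply _)]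
    norm_num
  simp only [h, Finset.prod_const, Finset.card_univ, Fintype.card_fin]

include hgen in
lemma sum_ne {τ : F ≃ₐ[ℚ] F} (hτ : τ ≠ 1) : ∑ T : Finset (Fin n), sT r T τ = 0 := by
  rw [sum_sT, Finset.prod_eq_zero_iff]
  by_contra hc
  push Not at hc
  apply hτ
  have h1 : ∀ i, τ (r i) = r i := by
    intro i
    by_contra hi
    apply hc i (Finset.mem_univ i)
    unfold sgn
    rw [if_neg hi]
    norm_num
  refine AlgEquiv.ext fun x => ?_
  have hx : x ∈ IntermediateField.adjoin ℚ (Set.range r) := by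
    rw [hgen]
    exact IntermediateField.mem_top
  have h2 : IntermediateField.adjoin ℚ (Set.range r) ≤
      IntermediateField.fixedField (Subgroup.zpowers τ) := by
    rw [IntermediateField.adjoin_le_iff]
    rintro _ ⟨i, rfl⟩
    rw [SetLike.mem_coe, IntermediateField.mem_fixedField_iff]
    intro f hf
    obtain ⟨k, rfl⟩ := Subgroup.mem_zpowers_iff.1 hf
    have h3 : τ ∈ MulAction.stabilizer (F ≃ₐ[ℚ] F) (r i) := h1 i
    exact (MulAction.stabilizer (F ≃ₐ[ℚ] F) (r i)).zpow_mem h3 k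
  have h3 := h2 hx
  rw [IntermediateField.mem_fixedField_iff] at h3
  exact h3 τ (Subgroup.mem_zpowers τ)

variable {E : WeierstrassCurve ℚ}

lemma exists_rat_fin [FiniteDimensional ℚ F] [IsGalois ℚ F] (P : Pt E F)
    (hP : ∀ σ : F ≃ₐ[ℚ] F, act E σ.toAlgHom P = P) : ∃ R : Pt E ℚ, act E (Algebra.ofId ℚ F) R = P := by
  rcases P with _ | ⟨X, Y, hXY⟩
  · exact ⟨0, rfl⟩
  · have h1 : ∀ σ : F ≃ₐ[ℚ] F, σ X = X ∧ σ Y = Y := by
      intro σ
      exact (Affine.Point.some.injEq _ _ _ _ _ _).mp (hP σ)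
    obtain ⟨x, hx⟩ := IntermediateField.mem_bot.1
      ((IsGalois.mem_bot_iff_fixed (F := ℚ) X).2 fun σ => (h1 σ).1)
    obtain ⟨y, hy⟩ := IntermediateField.mem_bot.1
      ((IsGalois.mem_bot_iff_fixed (F := ℚ) Y).2 fun σ => (h1 σ).2)
    subst hx hy
    have hn : (E.baseChange ℚ).toAffine.Nonsingular x y :=
      (Affine.baseChange_nonsingular E (f := Algebra.ofId ℚ F)
        (Algebra.ofId ℚ F).injective x y).mp hXY
    exact ⟨.some x y hn, rfl⟩

include hr hd hgen in
/-- the points over the multiquadratic field are torsion -/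
theorem tors_F [CharZero F] [FiniteDimensional ℚ F] (E1 : E.a₁ = 0) (E3 : E.a₃ = 0)
    (h : ∀ T : Finset (Fin n), ∀ R : Pt (tw (∏ i ∈ T, d i) E) ℚ, ∃ N : ℕ, 0 < N ∧ N • R = 0)
    (P : Pt E F) : ∃ N : ℕ, 0 < N ∧ N • P = 0 := by
  classical
  have hG : IsGalois ℚ F := isGalois_of_gen hr hgen
  -- the projections
  let A : Finset (Fin n) → Pt E F := fun T =>
    ∑ τ : F ≃ₐ[ℚ] F, sT r T τ • act E τ.toAlgHom P
  have hA : ∀ T, ∃ N : ℕ, 0 < N ∧ N • A T = 0 := by
    intro T
    have S := sc_tw E1 E3 (RingHom.id F) (prod_sq' hr T) (prod_ne hr hd T)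
    have hfix : ∀ σ : F ≃ₐ[ℚ] F, act (tw (∏ i ∈ T, d i) E) σ.toAlgHom (tm S (A T)) = tm S (A T) := by
      intro σ
      have h1 := tw_act S σ.toAlgHom (sT r T σ) (sT_pm T σ) (sT_spec hr T σ) (A T)
      rw [← h1]
      congr 1
      show sT r T σ • act E σ.toAlgHom (∑ τ : F ≃ₐ[ℚ] F, sT r T τ • act E τ.toAlgHom P) = _
      rw [map_sum, Finset.smul_sum]
      refine Fintype.sum_equiv (Equiv.mulLeft σ) _ _ fun τ => ?_
      rw [map_zsmul, smul_smul, act_act]
      show _ = sT r T (σ * τ) • act E (σ * τ).toAlgHom P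
      rw [sT_mul hr hd]
      rfl
    obtain ⟨R, hR⟩ := exists_rat_fin _ hfix
    obtain ⟨N, hN, hN0⟩ := h T R
    refine ⟨N, hN, tm_inj S ?_⟩
    rw [map_nsmul, ← hR, ← map_nsmul, hN0, map_zero, map_zero]
  choose N hN hN0 using hA
  have hsum : ∑ T : Finset (Fin n), A T = (2 ^ n : ℕ) • P := by
    show ∑ T : Finset (Fin n), ∑ τ : F ≃ₐ[ℚ] F, sT r T τ • act E τ.toAlgHom P = _
    rw [Finset.sum_comm]
    have h1 : ∀ τ : F ≃ₐ[ℚ] F, ∑ T : Finset (Fin n), sT r T τ • act E τ.toAlgHom P =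
        (∑ T : Finset (Fin n), sT r T τ) • act E τ.toAlgHom P := fun τ => (Finset.sum_smul).symm
    rw [Finset.sum_congr rfl fun τ _ => h1 τ, Finset.sum_eq_single (1 : F ≃ₐ[ℚ] F)]
    · rw [sum_one]
      have h2 : act E ((1 : F ≃ₐ[ℚ] F).toAlgHom) P = P := act_id E _ (fun x => rfl) P
      rw [h2, ← natCast_zsmul]
      push_cast
      rfl
    · intro τ _ hτ
      rw [sum_ne hgen hτ, zero_smul]
    · intro h2
      exact absurd (Finset.mem_univ _) h2
  refine ⟨(∏ T, N T) * 2 ^ n, Nat.mul_pos (Finset.prod_pos fun T _ => hN T) (pow_pos two_pos n), ?_⟩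
  rw [mul_smul, ← hsum, Finset.smul_sum]
  refine Finset.sum_eq_zero fun T _ => ?_
  obtain ⟨k, hk⟩ := Finset.dvd_prod_of_mem N (Finset.mem_univ T)
  rw [hk, mul_comm, mul_smul, hN0, smul_zero]

end main

end Pool.Agent.D0H76.BKR
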