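import Mathlib
import Pool.Agent.D0H76.BKR.Dsc
import Pool.Agent.D0H76.BKR.Fpt
import Pool.Agent.TH841.NF.Hom
import Pool.Agent.Y682.Rst
import Pool.Agent.Y682.Stab
import Pool.Agent.D0H10.Q4.StmC

/-!
Project BKR: finiteness of the points and bounded exponent of the 2-primary part of Sha over the
multiquadratic field.
-/

set_option autoImplicit false
set_option linter.unusedSectionVars false

open WeierstrassCurve
open Pool.Agent.TH841.NF
open Pool.Agent.TH841.SH.D (Pt act)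
open Pool.Agent.Y682 (IsT MP)
open Pool.Agent.D0H10.Q4 (Adm matQ cZ)
open Pool.Agent.D0H76.Q4 (mtQ)

namespace Pool.Agent.D0H76.BKR

lemma det_iff (m : ℕ) : (matQ m).det = (mtQ m).det := rfl

variable {m : ℕ}

/-- the curve over the rational numbers -/
abbrev cR (c : ℕ) : WeierstrassCurve ℚ := Pool.Agent.D0H10.Q4.cQ c

/-- the prime factors of `t` divide `m` -/
def Sup (m t : ℕ) : Prop := t ≠ 0 ∧ ∀ p : ℕ, p.Prime → p ∣ t → p ∣ m

lemma Sup.of_dvd {m t : ℕ} (hm : m ≠ 0) (ht : t ∣ m) : Sup m t :=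
  ⟨fun h0 => hm (Nat.eq_zero_of_zero_dvd (h0 ▸ ht)), fun _ _ hp => hp.trans ht⟩

lemma Sup.mul {m t u : ℕ} (ht : Sup m t) (hu : Sup m u) : Sup m (t * u) :=
  ⟨mul_ne_zero ht.1 hu.1, fun p hp h => by
    rcases (Nat.Prime.dvd_mul hp).1 h with h1 | h1
    · exact ht.2 p hp h1
    · exact hu.2 p hp h1⟩

lemma isT_tw (h : Adm m) {e t : ℕ} (he : Sup m e) (ht : Sup m t) :
    IsT (tw (t : ℚ) (cR (m * e ^ 2))) (0 : ℚ) (2 * m * ((e * t : ℕ) : ℚ) ^ 2) := by
  have hm : (m : ℚ) ≠ 0 := Nat.cast_ne_zero.2 h.1.ne_zero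
  have ht0 : (((e * t : ℕ)) : ℚ) ≠ 0 := Nat.cast_ne_zero.2 (he.mul ht).1
  have hB : (2 * m * ((e * t : ℕ) : ℚ) ^ 2 : ℚ) ≠ 0 :=
    mul_ne_zero (mul_ne_zero two_ne_zero hm) (pow_ne_zero 2 ht0)
  refine ⟨rfl, ?_, rfl, ?_, ?_, hB, ?_⟩
  · show (t : ℚ) * ((0 : ℤ) : ℚ) = 0
    rw [Int.cast_zero, mul_zero]
  · show (t : ℚ) ^ 2 * ((2 * ((m * e ^ 2 : ℕ) : ℤ) : ℤ) : ℚ) = _
    push_cast
    ring
  · show (t : ℚ) ^ 3 * ((0 : ℤ) : ℚ) = 0
    rw [Int.cast_zero, mul_zero]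
  · rw [zero_pow two_ne_zero, zero_sub]
    exact neg_ne_zero.2 (mul_ne_zero four_ne_zero hB)

lemma isT_base {k k' : Type} [Field k] [Field k'] [Algebra k k'] {W : WeierstrassCurve k} {A B : k}
    (h : IsT W A B) : IsT (W.baseChange k') (algebraMap k k' A) (algebraMap k k' B) where
  h1 := by
    show algebraMap k k' W.a₁ = 0
    rw [h.h1, map_zero]
  h2 := by
    show algebraMap k k' W.a₂ = _
    rw [h.h2]
  h3 := by
    show algebraMap k k' W.a₃ = 0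
    rw [h.h3, map_zero]
  h4 := by
    show algebraMap k k' W.a₄ = _
    rw [h.h4]
  h6 := by
    show algebraMap k k' W.a₆ = 0
    rw [h.h6, map_zero]
  hB := (map_ne_zero _).2 h.hB
  hD := by
    have h1 : algebraMap k k' A ^ 2 - 4 * algebraMap k k' B = algebraMap k k' (A ^ 2 - 4 * B) := by
      rw [map_sub, map_pow, map_mul, map_ofNat]
    rw [h1]
    exact (map_ne_zero _).2 h.hD

/-- the twists over `ℚ`: finitely many points -/
theorem tw_fin (h : Adm m) (hd : (matQ m).det ≠ 0) {e t : ℕ} (he : Sup m e) (ht : Sup m t) :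
    Finite (Pt (tw (t : ℚ) (cR (m * e ^ 2))) ℚ) := by
  have hT := isT_base (k' := ℚ) (isT_tw h he ht)
  have e1 : algebraMap ℚ ℚ 0 = 0 := map_zero _
  have e2 : algebraMap ℚ ℚ (2 * m * ((e * t : ℕ) : ℚ) ^ 2) = 2 * m * ((e * t : ℕ) : ℚ) ^ 2 := rfl
  rw [e1, e2] at hT
  have h1 := (countT h.1 h.2 hd (he.mul ht).1 (he.mul ht).2 hT).1
  exact Pool.Agent.D0H76.Q4.fin_pts hT h1

/-- the identity scaling -/
lemma sc_id (E : WeierstrassCurve ℚ) : Sc (algebraMap ℚ ℚ) 1 E E := by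
  refine ⟨one_ne_zero, ?_, ?_, ?_, ?_, ?_⟩ <;> simp

/-- the Tate-Shafarevich groups over `ℚ` in the two descriptions -/
lemma sha_two {E : WeierstrassCurve ℚ}
    (h : ∀ x : Pool.Agent.TH841.NF.D.Sha E, 2 • x = 0 → x = 0)
    (y : Pool.Agent.TH841.SH.D.Sha E) (hy : 2 • y = 0) : y = 0 := by
  have h1 := Pool.Agent.Y682.coS_rsS (sc_id E) (RingEquiv.refl Qb) y
  have h2 : Pool.Agent.Y682.rsS (sc_id E) (RingEquiv.refl Qb) y = 0 := by
    apply h
    rw [← map_nsmul, hy, map_zero]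
  rw [h2, map_zero, Module.finrank_self, one_smul] at h1
  exact h1.symm

lemma sha_pow2 {E : WeierstrassCurve ℚ}
    (h : ∀ y : Pool.Agent.TH841.SH.D.Sha E, 2 • y = 0 → y = 0) (n : ℕ)
    (y : Pool.Agent.TH841.SH.D.Sha E) (hy : 2 ^ n • y = 0) : y = 0 := by
  induction n with
  | zero => rwa [pow_zero, one_smul] at hy
  | succ n ih =>
    apply ih
    apply h
    rw [smul_smul, mul_comm, ← pow_succ]
    exact hy

/-- the twists over `ℚ`: no 2-primary Sha -/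
theorem tw_sha (h : Adm m) (hd : (matQ m).det ≠ 0) {e t : ℕ} (he : Sup m e) (ht : Sup m t) (n : ℕ)
    (y : Pool.Agent.TH841.SH.D.Sha (tw (t : ℚ) (cR (m * e ^ 2)))) (hy : 2 ^ n • y = 0) : y = 0 :=
  sha_pow2 (sha_two (countT h.1 h.2 hd (he.mul ht).1 (he.mul ht).2 (isT_tw h he ht)).2) n y hy

section field

variable {F : Type} [Field F] [NumberField F]

/-- `F` is the field `ℚ(√p : p ∣ m)` -/
structure IsMq (m : ℕ) (F : Type) [Field F] [NumberField F] : Prop where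
  ex : ∀ p ∈ m.primeFactors, ∃ x : F, x ^ 2 = (p : F)
  gen : IntermediateField.adjoin ℚ {x : F | ∃ p ∈ m.primeFactors, x ^ 2 = (p : F)} = ⊤

/-- the prime factors in order -/
noncomputable def pr (m : ℕ) (i : Fin m.primeFactors.card) : ℕ := (m.primeFactors.equivFin.symm i : ℕ)

lemma pr_mem (i : Fin m.primeFactors.card) : pr m i ∈ m.primeFactors :=
  (m.primeFactors.equivFin.symm i).2

/-- their square roots -/
noncomputable def rt (h : IsMq m F) (i : Fin m.primeFactors.card) : F := (h.ex _ (pr_mem i)).choose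

lemma rt_sq (h : IsMq m F) (i : Fin m.primeFactors.card) :
    rt h i ^ 2 = algebraMap ℚ F ((pr m i : ℕ) : ℚ) := by
  rw [map_natCast]
  exact (h.ex _ (pr_mem i)).choose_spec

lemma pr_ne (i : Fin m.primeFactors.card) : ((pr m i : ℕ) : ℚ) ≠ 0 :=
  Nat.cast_ne_zero.2 (Nat.prime_of_mem_primeFactors (pr_mem i)).ne_zero

lemma rt_gen (h : IsMq m F) : IntermediateField.adjoin ℚ (Set.range (rt h)) = ⊤ := by
  rw [eq_top_iff, ← h.gen, IntermediateField.adjoin_le_iff]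
  rintro x ⟨p, hp, hx⟩
  have h1 : rt h (m.primeFactors.equivFin ⟨p, hp⟩) ^ 2 = (p : F) := by
    rw [rt_sq, map_natCast]
    unfold pr
    rw [Equiv.symm_apply_apply]
  have h2 : rt h (m.primeFactors.equivFin ⟨p, hp⟩) ∈
      IntermediateField.adjoin ℚ (Set.range (rt h)) :=
    IntermediateField.subset_adjoin ℚ _ ⟨_, rfl⟩
  rcases sq_eq_sq_iff_eq_or_eq_neg.1 (hx.trans h1.symm) with h3 | h3
  · rw [h3]
    exact h2
  · rw [h3]
    exact neg_mem h2

lemma IsMq.gal (h : IsMq m F) : IsGalois ℚ F := isGalois_of_gen (rt_sq h) (rt_gen h)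

lemma prod_pr (hm : Squarefree m) (T : Finset (Fin m.primeFactors.card)) :
    ∃ t : ℕ, t ∣ m ∧ ∏ i ∈ T, ((pr m i : ℕ) : ℚ) = (t : ℚ) := by
  refine ⟨∏ i ∈ T, pr m i, ?_, by push_cast; rfl⟩
  have hinj : Function.Injective (pr m) := fun i j hij =>
    m.primeFactors.equivFin.symm.injective (Subtype.ext hij)
  rw [← Finset.prod_image (f := fun x : ℕ => x) (g := pr m) (s := T) hinj.injOn]
  conv_rhs => rw [← Nat.prod_primeFactors_of_squarefree hm]
  apply Finset.prod_dvd_prod_of_subset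
  intro p hp
  obtain ⟨i, -, rfl⟩ := Finset.mem_image.1 hp
  exact pr_mem i

/-- the curve over `F` -/
abbrev cF (m : ℕ) (F : Type) [Field F] : WeierstrassCurve F := (cZ m).map (Int.castRingHom F)

lemma cF_base {m : ℕ} {F K : Type} [Field F] [Field K] [Algebra F K] :
    (cF m F).baseChange K = cF m K := by
  unfold cF WeierstrassCurve.baseChange
  rw [WeierstrassCurve.map_map]
  congr 1
  exact RingHom.ext_int _ _

/-- **finitely many points over `F`** -/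
theorem finite_F (h : Adm m) (hd : (matQ m).det ≠ 0) (hF : IsMq m F) {e : ℕ} (he : Sup m e) :
    Finite (Pt (cF (m * e ^ 2) F) F) := by
  classical
  have hG : IsGalois ℚ F := hF.gal
  have htor : ∀ P : Pt (cR (m * e ^ 2)) F, ∃ N : ℕ, 0 < N ∧ N • P = 0 := by
    refine tors_F (rt_sq hF) (fun i => pr_ne i) (rt_gen hF) ?_ ?_ fun T R => ?_
    · show ((0 : ℤ) : ℚ) = 0
      exact Int.cast_zero
    · show ((0 : ℤ) : ℚ) = 0
      exact Int.cast_zero
    · obtain ⟨t, ht, ht2⟩ := prod_pr h.1 T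
      have hfin : Finite (Pt (tw (∏ i ∈ T, ((pr m i : ℕ) : ℚ)) (cR (m * e ^ 2))) ℚ) := by
        rw [ht2]
        exact tw_fin h hd he (Sup.of_dvd h.1.ne_zero ht)
      exact ⟨Nat.card (Pt (tw (∏ i ∈ T, ((pr m i : ℕ) : ℚ)) (cR (m * e ^ 2))) ℚ), Nat.card_pos,
        card_nsmul_eq_zero'⟩
  have hm0 : (m : ℚ) ≠ 0 := Nat.cast_ne_zero.2 h.1.ne_zero
  have he0 : (e : ℚ) ≠ 0 := Nat.cast_ne_zero.2 he.1
  have hT : IsT ((cR (m * e ^ 2)).baseChange F) (algebraMap ℚ F 0)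
      (algebraMap ℚ F (2 * (m * e ^ 2))) := by
    refine isT_base ⟨?_, ?_, ?_, ?_, ?_, ?_, ?_⟩
    · show ((0 : ℤ) : ℚ) = 0
      exact Int.cast_zero
    · show ((0 : ℤ) : ℚ) = 0
      exact Int.cast_zero
    · show ((0 : ℤ) : ℚ) = 0
      exact Int.cast_zero
    · show ((2 * ((m * e ^ 2 : ℕ) : ℤ) : ℤ) : ℚ) = _
      push_cast
      ring
    · show ((0 : ℤ) : ℚ) = 0
      exact Int.cast_zero
    · exact mul_ne_zero two_ne_zero (mul_ne_zero hm0 (pow_ne_zero 2 he0))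
    · rw [zero_pow two_ne_zero, zero_sub]
      exact neg_ne_zero.2 (mul_ne_zero four_ne_zero
        (mul_ne_zero two_ne_zero (mul_ne_zero hm0 (pow_ne_zero 2 he0))))
  have hfg : Module.Finite ℤ (MP ((cR (m * e ^ 2)).baseChange F)) := Pool.Agent.Y682.fg_MP hT
  have hto : Module.IsTorsion ℤ (MP ((cR (m * e ^ 2)).baseChange F)) := by
    intro x
    obtain ⟨N, hN, hN0⟩ := htor x
    refine ⟨⟨(N : ℤ), mem_nonZeroDivisors_of_ne_zero (by exact_mod_cast hN.ne')⟩, ?_⟩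
    show (N : ℤ) • x = 0
    rw [natCast_zsmul]
    exact hN0
  have hfin : Finite (MP ((cR (m * e ^ 2)).baseChange F)) := Module.finite_of_fg_torsion _ hto
  have e' : (cF (m * e ^ 2) F).baseChange F = (cR (m * e ^ 2)).baseChange F := by
    rw [cF_base]
    exact (cF_base (F := ℚ)).symm
  show Finite ((cF (m * e ^ 2) F).baseChange F).toAffine.Point
  rw [e']
  exact hfin

/-- **the 2-primary part of Sha over `F` has bounded exponent** -/
theorem sha_F (h : Adm m) (hd : (matQ m).det ≠ 0) (hF : IsMq m F) {e : ℕ} (he : Sup m e) (k : ℕ)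
    (x : Pool.Agent.TH841.NF.D.Sha (cF (m * e ^ 2) F)) (hx : 2 ^ k • x = 0) :
    2 ^ m.primeFactors.card • x = 0 := by
  classical
  have hW : Sc (algebraMap ℚ F) 1 (cR (m * e ^ 2)) (cF (m * e ^ 2) F) := by
    have e1 : ∀ z : ℤ, algebraMap ℚ F (z : ℚ) = (z : F) := fun z => map_intCast _ _
    refine ⟨one_ne_zero, ?_, ?_, ?_, ?_, ?_⟩
    · show ((cZ (m * e ^ 2)).a₁ : F) = algebraMap ℚ F ((cZ (m * e ^ 2)).a₁ : ℚ) * 1
      rw [e1, mul_one]
    · show ((cZ (m * e ^ 2)).a₂ : F) = algebraMap ℚ F ((cZ (m * e ^ 2)).a₂ : ℚ) * 1 ^ 2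
      rw [e1, one_pow, mul_one]
    · show ((cZ (m * e ^ 2)).a₃ : F) = algebraMap ℚ F ((cZ (m * e ^ 2)).a₃ : ℚ) * 1 ^ 3
      rw [e1, one_pow, mul_one]
    · show ((cZ (m * e ^ 2)).a₄ : F) = algebraMap ℚ F ((cZ (m * e ^ 2)).a₄ : ℚ) * 1 ^ 4
      rw [e1, one_pow, mul_one]
    · show ((cZ (m * e ^ 2)).a₆ : F) = algebraMap ℚ F ((cZ (m * e ^ 2)).a₆ : ℚ) * 1 ^ 6
      rw [e1, one_pow, mul_one]
  obtain ⟨ε⟩ := Pool.Agent.Y682.exists_e F
  refine thS_ker hW ?_ ?_ ε (rt_sq hF) (fun i => pr_ne i) (rt_gen hF) x fun T => ?_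
  · show ((0 : ℤ) : ℚ) = 0
    exact Int.cast_zero
  · show ((0 : ℤ) : ℚ) = 0
    exact Int.cast_zero
  · obtain ⟨t, ht, ht2⟩ := prod_pr h.1 T
    have h1 : ∀ y : Pool.Agent.TH841.SH.D.Sha (tw (∏ i ∈ T, ((pr m i : ℕ) : ℚ)) (cR (m * e ^ 2))),
        2 ^ k • y = 0 → y = 0 := by
      rw [ht2]
      exact tw_sha h hd he (Sup.of_dvd h.1.ne_zero ht) k
    apply h1
    rw [← map_nsmul, hx, map_zero]

end field

end Pool.Agent.D0H76.BKR
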