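import Pool.Agent.D0H76.BKR.Ext

/-!
Project BKR: rational points of the covers of `y² = x³ + a x` if `(0, 0)` is its only point.
-/

set_option autoImplicit false
set_option linter.unusedVariables false
set_option linter.unusedSectionVars false

open Finset IntermediateField
open Pool.Agent.D0H69.UC (Pts count)

namespace Pool.Agent.D0H76.BKR

open FF

/-- `F` is the function field of a curve over `k` -/
def IsC (k F : Type) [Field k] [Field F] [Algebra k F] : Prop :=
  ∃ x : F, Transcendental k x ∧ FiniteDimensional k⟮x⟯ F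

section
variable {K F : Type} [Field K] [Field F] [Algebra K F] [CharZero K]

/-- the degree over `K(x)` is at most twice the degree over `K(x, y)` -/
theorem deg_le {D : K} {x y : F} (h : y ^ 2 = x ^ 3 + algebraMap K F D * x)
    (hfd : FiniteDimensional K⟮x⟯ F) :
    Module.finrank K⟮x⟯ F ≤ 2 * Module.finrank (IntermediateField.adjoin K {x, y}) F := by
  have h1 : (K⟮x⟯⟮y⟯).restrictScalars K = IntermediateField.adjoin K {x, y} := adjoin_simple_adjoin_simple K x y
  have h2 : Module.finrank (IntermediateField.adjoin K {x, y}) F = Module.finrank K⟮x⟯⟮y⟯ F := by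
    rw [← h1]
    rfl
  rw [h2, ← Module.finrank_mul_finrank K⟮x⟯ K⟮x⟯⟮y⟯ F]
  apply Nat.mul_le_mul_right
  have hy : IsIntegral K⟮x⟯ y := Algebra.IsIntegral.isIntegral y
  rw [IntermediateField.adjoin.finrank hy]
  let X' : K⟮x⟯ := ⟨x, mem_adjoin_simple_self K x⟩
  let p : Polynomial K⟮x⟯ := Polynomial.X ^ 2 -
    Polynomial.C (X' ^ 3 + algebraMap K K⟮x⟯ D * X')
  have hp : p.Monic := by
    unfold p
    monicity!
  have hpd : p.natDegree = 2 := by
    unfold p
    compute_degree!
  have h3 : Polynomial.aeval y p = 0 := by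
    unfold p
    simp only [map_sub, map_add, map_mul, map_pow, Polynomial.aeval_X, Polynomial.aeval_C]
    have e1 : algebraMap K⟮x⟯ F (algebraMap K K⟮x⟯ D) = algebraMap K F D := rfl
    have e2 : algebraMap K⟮x⟯ F X' = x := rfl
    rw [e1, e2]
    linear_combination h
  calc (minpoly K⟮x⟯ y).natDegree ≤ p.natDegree :=
        Polynomial.natDegree_le_natDegree (minpoly.min _ _ hp h3)
    _ = 2 := hpd

/-- curves over `K` which cover `y² = x³ + D x` -/
theorem count_K {D : K} (hD : D ≠ 0) (hpt : ∀ x y : K, y ^ 2 = x ^ 3 + D * x → x = 0)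
    (hC : IsC K F) {x y : F} (hx : Transcendental K x) (h : y ^ 2 = x ^ 3 + algebraMap K F D * x) :
    (Pts K F).Finite ∧ (Pts K F).ncard ≤ 2 * Module.finrank (IntermediateField.adjoin K {x, y}) F := by
  obtain ⟨f, hf, hffd⟩ := hC
  have : IsFF K F := FF.IsFF.of_finite hf hffd
  have hfd : FiniteDimensional K⟮x⟯ F := FF.IsFF.finite hx
  have e : y ^ 2 = x ^ 3 + algebraMap K F D * x + algebraMap K F 0 := by
    rw [map_zero, add_zero]
    exact h
  obtain ⟨h1, h2⟩ := count hx e {0} ∅ (by
    intro c hc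
    rw [mem_singleton] at hc
    subst hc
    refine ⟨by ring, ?_⟩
    rw [zero_pow two_ne_zero, mul_zero, zero_add]
    exact hD) (by
    intro c d hcd
    left
    rw [mem_singleton]
    apply hpt c d
    rw [hcd, add_zero])
  refine ⟨h1, ?_⟩
  simp only [card_empty, card_singleton] at h2
  have h3 := deg_le h hfd
  omega

/-- curves over `k` with a map to `y² = x³ + D x` over `K` -/
theorem count_k {k F₀ : Type} [Field k] [Field F₀] [Algebra k K] [Algebra k F₀] [Algebra F₀ F]
    [Algebra k F] [IsScalarTower k F₀ F] [IsScalarTower k K F] [FiniteDimensional k K]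
    (hF : IntermediateField.adjoin F₀ (Set.range (algebraMap K F)) = ⊤)
    {D : K} (hD : D ≠ 0) (hpt : ∀ x y : K, y ^ 2 = x ^ 3 + D * x → x = 0)
    (hC : IsC K F) {x y : F} (hx : Transcendental K x) (h : y ^ 2 = x ^ 3 + algebraMap K F D * x) :
    (Pts k F₀).Finite ∧ (Pts k F₀).ncard ≤ 2 * Module.finrank (IntermediateField.adjoin K {x, y}) F := by
  obtain ⟨h1, h2⟩ := count_K hD hpt hC hx h
  obtain ⟨h3, h4⟩ := pts_le (k := k) (F₀ := F₀) hF h1
  exact ⟨h3, h4.trans h2⟩

end

end Pool.Agent.D0H76.BKR
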