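import Pool.Agent.D0H76.BKR.Alg

/-!
Project BKR: the degree of the field `ℚ(√p : p ∣ m)`.
-/

set_option autoImplicit false
set_option linter.unusedSectionVars false

open NumberField
open Pool.Agent.D0H10.Q4 (Adm)

namespace Pool.Agent.D0H76.BKR

section gen

variable {F : Type} [Field F] [NumberField F] {n : ℕ} {r : Fin n → F} {d : Fin n → ℚ}

/-- a character of the Galois group that is not trivial -/
lemma exists_neg (hr : ∀ i, r i ^ 2 = algebraMap ℚ F (d i)) [IsGalois ℚ F] (T : Finset (Fin n))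
    (hT : ∀ q : ℚ, q ^ 2 ≠ ∏ i ∈ T, d i) : ∃ σ : F ≃ₐ[ℚ] F, sT r T σ = -1 := by
  by_contra hc
  push Not at hc
  have h1 : ∀ σ : F ≃ₐ[ℚ] F, σ (∏ i ∈ T, r i) = ∏ i ∈ T, r i := by
    intro σ
    rw [sT_spec hr T σ, (sT_pm T σ).resolve_right (hc σ), Int.cast_one, one_mul]
  obtain ⟨q, hq⟩ := IntermediateField.mem_bot.1 ((IsGalois.mem_bot_iff_fixed (F := ℚ) _).2 h1)
  apply hT q
  apply (algebraMap ℚ F).injective
  rw [map_pow, hq]
  exact prod_sq' hr T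

/-- the degree -/
theorem deg_eq (hr : ∀ i, r i ^ 2 = algebraMap ℚ F (d i)) (hd : ∀ i, d i ≠ 0)
    (hgen : IntermediateField.adjoin ℚ (Set.range r) = ⊤)
    (hT : ∀ T : Finset (Fin n), T.Nonempty → ∀ q : ℚ, q ^ 2 ≠ ∏ i ∈ T, d i) :
    Module.finrank ℚ F = 2 ^ n := by
  classical
  have hG : IsGalois ℚ F := isGalois_of_gen hr hgen
  have h1 : ∀ T : Finset (Fin n), T ≠ ∅ → ∑ τ : F ≃ₐ[ℚ] F, sT r T τ = 0 := by
    intro T hT0
    obtain ⟨σ, hσ⟩ := exists_neg hr T (hT T (Finset.nonempty_iff_ne_empty.2 hT0))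
    have h2 : ∑ τ : F ≃ₐ[ℚ] F, sT r T (σ * τ) = ∑ τ : F ≃ₐ[ℚ] F, sT r T τ :=
      Equiv.sum_comp (Equiv.mulLeft σ) (fun τ => sT r T τ)
    have h3 : ∑ τ : F ≃ₐ[ℚ] F, sT r T (σ * τ) = -∑ τ : F ≃ₐ[ℚ] F, sT r T τ := by
      rw [← Finset.sum_neg_distrib]
      refine Finset.sum_congr rfl fun τ _ => ?_
      rw [sT_mul hr hd T σ τ, hσ, neg_one_mul]
    omega
  have h2 : ∑ T : Finset (Fin n), ∑ τ : F ≃ₐ[ℚ] F, sT r T τ = Fintype.card (F ≃ₐ[ℚ] F) := by
    rw [Finset.sum_eq_single (∅ : Finset (Fin n)) (fun T _ hT0 => h1 T hT0)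
      (fun h => absurd (Finset.mem_univ _) h)]
    unfold sT
    simp
  have h3 : ∑ T : Finset (Fin n), ∑ τ : F ≃ₐ[ℚ] F, sT r T τ = 2 ^ n := by
    rw [Finset.sum_comm, Finset.sum_eq_single (1 : F ≃ₐ[ℚ] F) (fun τ _ hτ => sum_ne hgen hτ)
      (fun h => absurd (Finset.mem_univ _) h)]
    exact sum_one
  have h4 : Fintype.card (F ≃ₐ[ℚ] F) = Module.finrank ℚ F := by
    rw [← Nat.card_eq_fintype_card]
    exact IsGalois.card_aut_eq_finrank ℚ F
  rw [h3] at h2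
  rw [← h4]
  exact_mod_cast h2.symm

end gen

variable {m : ℕ} {F : Type} [Field F] [NumberField F]

/-- the products of the different primes are not squares -/
lemma prod_pr_ne (T : Finset (Fin m.primeFactors.card)) (hT : T.Nonempty) (q : ℚ) :
    q ^ 2 ≠ ∏ i ∈ T, ((pr m i : ℕ) : ℚ) := by
  intro hq
  have hinj : Function.Injective (pr m) := fun i j hij =>
    m.primeFactors.equivFin.symm.injective (Subtype.ext hij)
  have hpr : ∀ i, (pr m i).Prime := fun i => Nat.prime_of_mem_primeFactors (pr_mem i)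
  have h1 : IsSquare (((∏ i ∈ T, pr m i : ℕ)) : ℚ) := ⟨q, by rw [← pow_two, hq]; push_cast; rfl⟩
  rw [Rat.isSquare_natCast_iff] at h1
  obtain ⟨s, hs⟩ := h1
  obtain ⟨i, hi⟩ := hT
  have h2 : pr m i ∣ s := by
    have h3 : pr m i ∣ s * s := by
      rw [← hs]
      exact Finset.dvd_prod_of_mem _ hi
    rcases (Nat.Prime.dvd_mul (hpr i)).1 h3 with h4 | h4 <;> exact h4
  have h3 : pr m i * pr m i ∣ pr m i * ∏ j ∈ T.erase i, pr m j := by
    rw [Finset.mul_prod_erase T (fun j => pr m j) hi, hs]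
    exact mul_dvd_mul h2 h2
  have h4 : pr m i ∣ ∏ j ∈ T.erase i, pr m j := Nat.dvd_of_mul_dvd_mul_left (hpr i).pos h3
  rw [Prime.dvd_finset_prod_iff (hpr i).prime] at h4
  obtain ⟨j, hj, h5⟩ := h4
  have h6 : pr m i = pr m j := (Nat.prime_dvd_prime_iff_eq (hpr i) (hpr j)).1 h5
  exact (Finset.mem_erase.1 hj).1 (hinj h6.symm)

/-- **the degree of the field** -/
theorem IsMq.deg (hF : IsMq m F) : Module.finrank ℚ F = 2 ^ m.primeFactors.card :=
  deg_eq (rt_sq hF) (fun i => pr_ne i) (rt_gen hF) fun T hT q => prod_pr_ne T hT q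

end Pool.Agent.D0H76.BKR
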