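import Mathlib

/-!
Project BKR: quadratic characters modulo an odd squarefree number are Jacobi symbols.
-/

set_option autoImplicit false

namespace Pool.Agent.D0H76.BKR

lemma pm_mul {G : Type} [Group G] {f : G →* ℂ} (hf : ∀ u, f u = 1 ∨ f u = -1) (u : G) :
    f u * f u = 1 := by
  rcases hf u with h | h <;> rw [h] <;> norm_num

lemma quad_prime {p : ℕ} [Fact p.Prime] (hp2 : p ≠ 2) (f : (ZMod p)ˣ →* ℂ)
    (hf : ∀ u, f u = 1 ∨ f u = -1) :
    ∃ d : ℕ, d ∣ p ∧ ∀ (a : ℕ) (ha : a.Coprime p),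
      f (ZMod.unitOfCoprime a ha) = (jacobiSym (a : ℤ) d : ℂ) := by
  classical
  by_cases h : ∃ u, f u = -1
  · obtain ⟨u₀, hu₀⟩ := h
    refine ⟨p, dvd_rfl, fun a ha => ?_⟩
    rw [← jacobiSym.legendreSym.to_jacobiSym]
    have ha0 : ((a : ℤ) : ZMod p) ≠ 0 := by
      have := (ZMod.unitOfCoprime a ha).ne_zero
      rw [ZMod.coe_unitOfCoprime] at this
      push_cast
      exact this
    have hsq : ∀ u : (ZMod p)ˣ, IsSquare (u : ZMod p) → f u = 1 := by
      rintro u ⟨w, hw⟩
      have hw0 : w ≠ 0 := by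
        rintro rfl
        rw [mul_zero] at hw
        exact u.ne_zero hw
      have e : u = Units.mk0 w hw0 * Units.mk0 w hw0 := Units.ext (by
        rw [Units.val_mul, Units.val_mk0, hw])
      rw [e, map_mul]
      exact pm_mul hf _
    have hch : ringChar (ZMod p) ≠ 2 := by rw [ZMod.ringChar_zmod_n]; exact hp2
    have hn0 : ¬ IsSquare (u₀ : ZMod p) := by
      intro h1
      have := hsq u₀ h1
      rw [hu₀] at this
      norm_num at this
    by_cases h1 : IsSquare ((a : ℤ) : ZMod p)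
    · rw [(legendreSym.eq_one_iff p ha0).2 h1, hsq _ (by
        rw [ZMod.coe_unitOfCoprime]
        push_cast at h1
        exact h1)]
      norm_num
    · rw [(legendreSym.eq_neg_one_iff p).2 h1]
      have h2 : IsSquare ((ZMod.unitOfCoprime a ha * u₀ : (ZMod p)ˣ) : ZMod p) := by
        have h3 : quadraticChar (ZMod p) ((ZMod.unitOfCoprime a ha * u₀ : (ZMod p)ˣ) : ZMod p) = 1 := by
          rw [Units.val_mul, map_mul, ZMod.coe_unitOfCoprime]
          have h4 : quadraticChar (ZMod p) ((a : ℕ) : ZMod p) = -1 := by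
            apply quadraticChar_neg_one_iff_not_isSquare.2
            push_cast at h1
            exact h1
          rw [h4, quadraticChar_neg_one_iff_not_isSquare.2 hn0]
          norm_num
        exact (quadraticChar_one_iff_isSquare (Units.ne_zero _)).1 h3
      have h5 := hsq _ h2
      rw [map_mul, hu₀] at h5
      push_cast
      linear_combination -h5
  · push Not at h
    refine ⟨1, one_dvd p, fun a ha => ?_⟩
    rw [jacobiSym.one_right]
    rcases hf (ZMod.unitOfCoprime a ha) with h1 | h1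
    · rw [h1]; norm_num
    · exact absurd h1 (h _)

theorem quad_char : ∀ m : ℕ, Squarefree m → Odd m → ∀ f : (ZMod m)ˣ →* ℂ,
    (∀ u, f u = 1 ∨ f u = -1) → ∃ d : ℕ, d ∣ m ∧ ∀ (a : ℕ) (ha : a.Coprime m),
      f (ZMod.unitOfCoprime a ha) = (jacobiSym (a : ℤ) d : ℂ) := by
  intro m
  induction m using Nat.strong_induction_on with
  | _ m ih =>
    intro hsq hodd f hf
    by_cases h1 : m = 1
    · subst h1
      refine ⟨1, one_dvd 1, fun a ha => ?_⟩
      have : ZMod.unitOfCoprime a ha = 1 := Subsingleton.elim _ _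
      rw [this, map_one, jacobiSym.one_right]
      norm_num
    · have hm0 : m ≠ 0 := hsq.ne_zero
      obtain ⟨p, hp, hpm⟩ := Nat.exists_prime_and_dvd h1
      obtain ⟨n, rfl⟩ := hpm
      have hFp : Fact p.Prime := ⟨hp⟩
      have hp2 : p ≠ 2 := by
        rintro rfl
        exact (Nat.not_odd_iff_even.2 (even_two.mul_right n)) hodd
      have hco : Nat.Coprime p n := Nat.coprime_of_squarefree_mul hsq
      have hn0 : n ≠ 0 := right_ne_zero_of_mul hm0
      have hlt : n < p * n := by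
        have := hp.two_le
        nlinarith [Nat.pos_of_ne_zero hn0]
      let E : (ZMod (p * n))ˣ ≃* (ZMod p)ˣ × (ZMod n)ˣ :=
        (Units.mapEquiv (ZMod.chineseRemainder hco).toMulEquiv).trans MulEquiv.prodUnits
      let f₁ : (ZMod p)ˣ →* ℂ := f.comp (E.symm.toMonoidHom.comp (MonoidHom.inl _ _))
      let f₂ : (ZMod n)ˣ →* ℂ := f.comp (E.symm.toMonoidHom.comp (MonoidHom.inr _ _))
      obtain ⟨d₁, hd₁, h₁⟩ := quad_prime hp2 f₁ (fun u => hf _)
      obtain ⟨d₂, hd₂, h₂⟩ := ih n hlt (hsq.squarefree_of_dvd (dvd_mul_left n p))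
        (Nat.Odd.of_mul_right hodd) f₂ (fun u => hf _)
      have hd₁0 : d₁ ≠ 0 := fun h0 => hp.ne_zero (Nat.eq_zero_of_zero_dvd (h0 ▸ hd₁))
      have hd₂0 : d₂ ≠ 0 := fun h0 => hn0 (Nat.eq_zero_of_zero_dvd (h0 ▸ hd₂))
      refine ⟨d₁ * d₂, mul_dvd_mul hd₁ hd₂, fun a ha => ?_⟩
      have ha1 : a.Coprime p := Nat.Coprime.coprime_mul_right_right ha
      have ha2 : a.Coprime n := Nat.Coprime.coprime_mul_left_right ha
      have hE : E (ZMod.unitOfCoprime a ha) = (ZMod.unitOfCoprime a ha1, ZMod.unitOfCoprime a ha2) := by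
        refine Prod.ext (Units.ext ?_) (Units.ext ?_)
        · show ((ZMod.chineseRemainder hco) ((a : ℕ) : ZMod (p * n))).1 = ((a : ℕ) : ZMod p)
          rw [map_natCast]
          rfl
        · show ((ZMod.chineseRemainder hco) ((a : ℕ) : ZMod (p * n))).2 = ((a : ℕ) : ZMod n)
          rw [map_natCast]
          rfl
      have hfu : f (ZMod.unitOfCoprime a ha) =
          f₁ (ZMod.unitOfCoprime a ha1) * f₂ (ZMod.unitOfCoprime a ha2) := by
        show _ = f (E.symm (ZMod.unitOfCoprime a ha1, 1)) * f (E.symm (1, ZMod.unitOfCoprime a ha2))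
        rw [← map_mul, ← map_mul, Prod.mk_mul_mk, one_mul, mul_one, ← hE, MulEquiv.symm_apply_apply]
      have : NeZero d₁ := ⟨hd₁0⟩
      have : NeZero d₂ := ⟨hd₂0⟩
      rw [hfu, h₁ a ha1, h₂ a ha2, jacobiSym.mul_right]
      push_cast
      rfl

end Pool.Agent.D0H76.BKR
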