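import Pool.Agent.D0H10.Q4.StmC

/-!
Project BKR (helper76): the rank formula of Bloch and Kato over the multiquadratic fields
`ℚ(√p : p ∣ m)` for the quartic twists `y² = x³ + 2 m x`.  Definitions and statements of the modules.
-/

set_option autoImplicit false

open NumberField IsDedekindDomain

namespace Pool.Agent.D0H76.BKR

open Pool.Agent.D0H10.Q4 (Adm matQ cZ)

/-- The number of the affine points `(x, y)` over the ring `R`. -/
noncomputable def pts (W : WeierstrassCurve ℤ) (R : Type) [CommRing R] : ℕ :=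
  Nat.card {P : R × R // (W.map (Int.castRingHom R)).toAffine.Equation P.1 P.2}

section

variable {K : Type} [Field K] [NumberField K]

/-- `a_v = N v + 1 - #W(k_v)`, the points over the residue field `k_v` counted with the point at
infinity. -/
noncomputable def av (W : WeierstrassCurve ℤ) (v : HeightOneSpectrum (𝓞 K)) : ℤ :=
  (Ideal.absNorm v.asIdeal : ℤ) - pts W (𝓞 K ⧸ v.asIdeal)

open Classical in
/-- The Euler factor of `L(W/K, s)` at `v` : `(1 - a_v N v^(-s) + N v^(1 - 2 s))⁻¹` if the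
discriminant is a unit at `v`, and `(1 - a_v N v^(-s))⁻¹` otherwise. -/
noncomputable def factor (W : WeierstrassCurve ℤ) (s : ℂ) (v : HeightOneSpectrum (𝓞 K)) : ℂ :=
  (1 - (av W v : ℂ) * (Ideal.absNorm v.asIdeal : ℂ) ^ (-s) +
    if ((W.Δ : ℤ) : 𝓞 K) ∈ v.asIdeal then 0 else (Ideal.absNorm v.asIdeal : ℂ) ^ (1 - 2 * s))⁻¹

end

/-- The Euler factor at `p` of the quadratic twist of `y² = x³ + 2 m x` by `d`, `d ∣ m`. -/
noncomputable def ef (m d : ℕ) (s : ℂ) (p : Nat.Primes) : ℂ :=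
  if (p : ℕ) ∣ 2 * m then 1 else
    (1 - (((p : ℕ) : ℂ) - (pts (cZ m) (ZMod p) : ℂ)) * (jacobiSym (p : ℕ) d : ℂ) *
      ((p : ℕ) : ℂ) ^ (-s) + ((p : ℕ) : ℂ) ^ (1 - 2 * s))⁻¹

/-- TWL (analytic side): the `L`-functions of the quadratic twists of `y² = x³ + 2 m x` by the divisors
of `m` are entire and not zero at `1` if the determinant is not zero.

Proof: `S_HEC` for `pr = fam m`, `V = univ` and the exponents `e i = 3` if `fam m i ∣ d`, `e i = 1`
otherwise.  `L s = LH X (s - 1/2)`, entire by `goodH`.  `L 1 ≠ 0`: `S_LIM`, `S_BET` (all the exponents are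
odd, so the quotient is congruent to `uu (dq ..) = 1` by `S_CRI`), as in `D0H10/Q4/Qval.lean`, `Kval.lean`.
Euler product: as `D0H10/Q4/Eul.lean` (`fH_good`, `fH_bad`), with
`X z = conj (tc (q4 z (-(2 m)))) * jacobiSym (nrm z) d` for the primary primes `z`, `z ∤ m` (adapt
`D0H69/Q4/Chr.lean`, `X_prime`): `∏_{π ∣ d} q4 π z ^ 2 = jacobiSym (nrm z) d`, because for a prime
`p ∣ d`, `p = π π'`: `(z/π)_2 (z/π')_2 = (z/π)_2 (z'/π)_2 = (N z/p)`. -/
def S_TWL : Prop := ∀ m : ℕ, Adm m → (matQ m).det ≠ 0 → ∀ d : ℕ, d ∣ m →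
  ∃ L : ℂ → ℂ, Differentiable ℂ L ∧ L 1 ≠ 0 ∧
    ∀ s : ℂ, (3 : ℝ) / 2 < s.re → HasProd (ef m d s) (L s)

/-- EK: the Euler product over a multiquadratic subfield of the `m`-th cyclotomic field.

Proof: adapt `Pool/Agent/Y884/XT/LK.lean` (`hasProd_K`, 400 lines, the curve `X_0(14)`) to the curve
`y² = x³ + 2 m x`; `local_quad` (Y702.L.Loc) and the lemmas on `below`, `deg`, `pw` are general,
`Pool.Agent.Y18.JT.s_cubext` is the point count over the extensions of the residue field.  At the places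
`v ∣ 2 m` the curve is `y² = x³` modulo `v`, with `N v` affine points, so that the factor is `1`.
The characters `χ` in `YY m M k` have `χ² = 1`, and a quadratic character modulo the squarefree odd `m`
is `p ↦ jacobiSym p d` for some `d ∣ m` (for `p ∤ m`); at `p ∣ m` put the coefficients zero. -/
def S_EK : Prop := ∀ m : ℕ, Adm m → ∀ (M : Type) [Field M] [NumberField M]
  [IsCyclotomicExtension {m} ℚ M] (k : IntermediateField ℚ M),
  (∀ (σ : Gal(M/ℚ)), ∀ x ∈ k, σ (σ x) = x) →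
  ∃ (ι : Type) (_ : Fintype ι) (δ : ι → ℕ), (∀ i, δ i ∣ m) ∧
    ∀ (G : ℕ → ℂ → ℂ), (∀ d, d ∣ m → ∀ s : ℂ, (3 : ℝ) / 2 < s.re → HasProd (ef m d s) (G d s)) →
      ∀ s : ℂ, (3 : ℝ) / 2 < s.re → HasProd (factor (K := k) (cZ m) s) (∏ i, G (δ i) s)

end Pool.Agent.D0H76.BKR
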