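import Pool.Agent.Y884.XT.LK
import Pool.Agent.D0H76.BKR.Stm
import Pool.Agent.D0H76.BKR.Qch

/-!
Project BKR: the Euler product of `y² = x³ + 2 m x` over a multiquadratic subfield of the `m`-th
cyclotomic field.  Adapted from `Pool/Agent/Y884/XT/LK.lean` (the curve `X_0(14)`).
-/

set_option autoImplicit false
set_option linter.unusedSectionVars false

open NumberField IsDedekindDomain H300.HW Filter
open Pool.Agent.H921R2.TatePole
open W165.CE (pw pw_eq pw_luc finite_bad intCast_mem_iff)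
open Pool.Agent.H82R3.EK (luc luc_eq card_points natCast_mem_iff nm_cpow prime_cpow)
open Pool.Agent.Y702.L (pv local_quad)
open Pool.Agent.Y884.XT (card_quot charP_quot)
open Pool.Agent.D0H10.Q4 (Adm cZ)

namespace Pool.Agent.D0H76.BKR

lemma eqn_iff (m : ℕ) (R : Type) [CommRing R] (x y : R) :
    ((cZ m).map (Int.castRingHom R)).toAffine.Equation x y ↔ y ^ 2 = x ^ 3 + 2 * (m : R) * x := by
  rw [WeierstrassCurve.Affine.equation_iff]
  unfold cZ
  simp only [WeierstrassCurve.map, eq_intCast]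
  push_cast
  constructor
  · intro h
    linear_combination h
  · intro h
    linear_combination h

/-- the cubic form -/
lemma pts_cubic (m : ℕ) (k : Type) [Field k] : pts (cZ m) k =
    Nat.card {x : k × k // x.2 ^ 2 = x.1 ^ 3 + ((0 : ℤ) : k) * x.1 ^ 2 + ((2 * m : ℤ) : k) * x.1 +
      ((0 : ℤ) : k)} := by
  unfold pts
  refine Nat.card_congr (Equiv.subtypeEquivRight fun x => ?_)
  rw [eqn_iff]
  push_cast
  constructor
  · intro h
    linear_combination h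
  · intro h
    linear_combination h

/-- the cuspidal cubic -/
lemma pts_cusp (m : ℕ) (k : Type) [Field k] [Finite k] (h : ((2 * m : ℕ) : k) = 0) :
    pts (cZ m) k = Nat.card k := by
  classical
  unfold pts
  symm
  refine Nat.card_congr
    { toFun := fun t => ⟨(t ^ 2, t ^ 3), ?_⟩
      invFun := fun P => if P.1.1 = 0 then 0 else P.1.2 / P.1.1
      left_inv := fun t => ?_
      right_inv := fun P => ?_ }
  · rw [eqn_iff]
    push_cast at h
    rw [h]
    ring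
  · show (if t ^ 2 = 0 then 0 else t ^ 3 / t ^ 2) = t
    split_ifs with h1
    · exact ((pow_eq_zero_iff two_ne_zero).1 h1).symm
    · have h2 : t ≠ 0 := fun h3 => h1 (by rw [h3, zero_pow two_ne_zero])
      field_simp
  · obtain ⟨⟨x, y⟩, hxy⟩ := P
    have h1 := (eqn_iff m k x y).1 hxy
    push_cast at h
    rw [h, zero_mul, add_zero] at h1
    apply Subtype.ext
    show ((if x = 0 then 0 else y / x) ^ 2, (if x = 0 then 0 else y / x) ^ 3) = (x, y)
    split_ifs with h2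
    · rw [h2, zero_pow three_ne_zero] at h1
      have h3 := (pow_eq_zero_iff two_ne_zero).1 h1
      rw [h2, h3, zero_pow two_ne_zero, zero_pow three_ne_zero]
    · have e1 : (y / x) ^ 2 = x := by
        rw [div_pow, h1]
        field_simp
      have e2 : (y / x) ^ 3 = y := by
        have : (y / x) ^ 3 = (y / x) ^ 2 * (y / x) := by ring
        rw [this, e1]
        field_simp
      rw [e1, e2]

/-- Hasse's bound -/
lemma pts_bound (m : ℕ) {k : Type} [Field k] [Fintype k] (hk : ringChar k ≠ 2) :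
    |((Fintype.card k : ℤ) - pts (cZ m) k : ℝ)| ≤ 2 * Real.sqrt (Fintype.card k) := by
  classical
  have h2 : (2 : k) ≠ 0 := Ring.two_ne_zero hk
  rw [pts_cubic m k]
  set P : Polynomial k := Polynomial.X ^ 3 + Polynomial.C ((0 : ℤ) : k) * Polynomial.X ^ 2 +
    Polynomial.C ((2 * m : ℤ) : k) * Polynomial.X + Polynomial.C ((0 : ℤ) : k) with hP
  have hdeg : P.natDegree = 3 := by
    rw [hP]
    compute_degree!
  have hmon : P.Monic := by
    rw [hP]
    monicity!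
  have hns : ∀ (c : k) (h : Polynomial k), P ≠ Polynomial.C c * h ^ 2 := by
    intro c h he
    have h1 := congrArg Polynomial.natDegree he
    rw [hdeg] at h1
    have hc : c ≠ 0 := by
      rintro rfl
      rw [map_zero, zero_mul, Polynomial.natDegree_zero] at h1
      omega
    rw [Polynomial.natDegree_C_mul hc, Polynomial.natDegree_pow] at h1
    omega
  have h4 := Pool.Agent.H341R2.Sharp.weil_sharp_monic hk hmon (by rw [hdeg]; norm_num) hns
  rw [hdeg] at h4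
  have h5 : ∀ x : k, P.eval x = x ^ 3 + ((0 : ℤ) : k) * x ^ 2 + ((2 * m : ℤ) : k) * x +
      ((0 : ℤ) : k) := by
    intro x
    rw [hP]
    simp only [Polynomial.eval_add, Polynomial.eval_mul, Polynomial.eval_pow, Polynomial.eval_X,
      Polynomial.eval_C]
  simp_rw [h5] at h4
  have h6 := congrArg (fun z : ℤ => (z : ℝ)) (card_points hk (fun x : k =>
    x ^ 3 + ((0 : ℤ) : k) * x ^ 2 + ((2 * m : ℤ) : k) * x + ((0 : ℤ) : k)))
  push_cast only [Int.cast_add, Int.cast_sum, Int.cast_natCast] at h6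
  rw [h6, Int.cast_natCast, show (Fintype.card k : ℝ) - (Fintype.card k +
    ∑ x : k, (quadraticChar k (x ^ 3 + ((0 : ℤ) : k) * x ^ 2 + ((2 * m : ℤ) : k) * x +
      ((0 : ℤ) : k)) : ℝ)) =
    - ∑ x : k, (quadraticChar k (x ^ 3 + ((0 : ℤ) : k) * x ^ 2 + ((2 * m : ℤ) : k) * x +
      ((0 : ℤ) : k)) : ℝ) by ring, abs_neg]
  refine h4.trans (le_of_eq ?_)
  norm_num

/-- the number `[p ∤ 2 m] p` -/
noncomputable def pp (m p : ℕ) : ℂ := if p ∣ 2 * m then 0 else p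

/-- the trace of Frobenius -/
noncomputable def tf (m p : ℕ) : ℤ := (p : ℤ) - pts (cZ m) (ZMod p)

lemma tf_bad {m p : ℕ} (hp : p.Prime) (h : p ∣ 2 * m) : tf m p = 0 := by
  have : Fact p.Prime := ⟨hp⟩
  unfold tf
  rw [pts_cusp m (ZMod p) ((ZMod.natCast_eq_zero_iff _ _).2 h), Nat.card_zmod, sub_self]

section
variable {K : Type} [Field K] [NumberField K]

lemma disc_eq (m : ℕ) : (cZ m).Δ = -((2 * (m : ℤ)) ^ 3 * 64) := by
  unfold cZ WeierstrassCurve.Δ WeierstrassCurve.b₂ WeierstrassCurve.b₄ WeierstrassCurve.b₆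
    WeierstrassCurve.b₈
  ring

lemma mem_iff (m : ℕ) (v : HeightOneSpectrum (𝓞 K)) :
    (((cZ m).Δ : ℤ) : 𝓞 K) ∈ v.asIdeal ↔ (below v : ℕ) ∣ 2 * m := by
  have h := natCast_mem_iff v (2 * m)
  rw [← h, disc_eq]
  push_cast
  rw [neg_mem_iff]
  constructor
  · intro h1
    rcases v.isPrime.mem_or_mem h1 with h2 | h2
    · exact v.isPrime.mem_of_pow_mem 3 h2
    · have h3 : (2 : 𝓞 K) ^ 6 ∈ v.asIdeal := by
        have e : (2 : 𝓞 K) ^ 6 = 64 := by norm_num
        rw [e]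
        exact h2
      exact Ideal.mul_mem_right _ _ (v.isPrime.mem_of_pow_mem 6 h3)
  · intro h1
    exact Ideal.mul_mem_right _ _ (Ideal.pow_mem_of_mem _ h1 3 (by norm_num))

lemma av_eq (m : ℕ) (v : HeightOneSpectrum (𝓞 K)) :
    ((av (cZ m) v : ℤ) : ℂ) = pw (tf m (below v) : ℂ) (pp m (below v)) (deg v) := by
  have hmax : v.asIdeal.IsMaximal := v.isPrime.isMaximal v.ne_bot
  letI : Field (𝓞 K ⧸ v.asIdeal) := Ideal.Quotient.field v.asIdeal
  have : Finite (𝓞 K ⧸ v.asIdeal) := Ideal.finiteQuotientOfFreeOfNeBot v.asIdeal v.ne_bot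
  letI : Fintype (𝓞 K ⧸ v.asIdeal) := Fintype.ofFinite _
  have hch := charP_quot v
  have hfp : Fact (below v : ℕ).Prime := ⟨(below v).2⟩
  obtain ⟨h1, h2, h3⟩ := nm_eq v
  have hcard : Ideal.absNorm v.asIdeal = Fintype.card (𝓞 K ⧸ v.asIdeal) := by
    rw [Ideal.absNorm_apply, Submodule.cardQuot_apply, Nat.card_eq_fintype_card]
  by_cases hb : (below v : ℕ) ∣ 2 * m
  · have hpp : pp m (below v) = 0 := by
      unfold pp
      rw [if_pos hb]
    rw [hpp, tf_bad (below v).2 hb, pw_eq (α := 0) (β := 0) (by simp) (by simp), zero_pow h2.ne',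
      add_zero]
    unfold av
    rw [hcard]
    have h5 : pts (cZ m) (𝓞 K ⧸ v.asIdeal) = Nat.card (𝓞 K ⧸ v.asIdeal) := by
      refine pts_cusp m _ ?_
      exact (CharP.cast_eq_zero_iff (𝓞 K ⧸ v.asIdeal) (below v : ℕ) _).2 hb
    rw [h5, Nat.card_eq_fintype_card]
    push_cast
    ring
  have hp2 : (below v : ℕ) ≠ 2 := fun h => hb (by rw [h]; exact dvd_mul_right _ _)
  have hpm : ¬ (below v : ℕ) ∣ m := fun h => hb (h.mul_left _)
  have hpp : pp m (below v) = ((below v : ℕ) : ℤ) := by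
    unfold pp
    rw [if_neg hb]
    push_cast
    rfl
  rw [hpp, pw_luc]
  congr 1
  letI : Algebra (ZMod (below v : ℕ)) (𝓞 K ⧸ v.asIdeal) := ZMod.algebra _ _
  have hfin : Module.finrank (ZMod (below v : ℕ)) (𝓞 K ⧸ v.asIdeal) = deg v := by
    apply Nat.pow_right_injective (below v).2.two_le
    show (below v : ℕ) ^ _ = (below v : ℕ) ^ _
    rw [FiniteField.pow_finrank_eq_natCard (below v : ℕ), card_quot]
  have e1 := Pool.Agent.Y18.JT.s_cubext (below v : ℕ) hp2 0 (2 * m) 0 (by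
    intro h
    have e0 : ((0 : ℤ) ^ 2 * (2 * m) ^ 2 - 4 * (2 * m) ^ 3 - 4 * 0 ^ 3 * 0 - 27 * 0 ^ 2 +
        18 * 0 * (2 * m) * 0) = -(((2 ^ 5 * m ^ 3 : ℕ)) : ℤ) := by
      push_cast
      ring
    rw [e0, Int.dvd_neg] at h
    have h7' : (below v : ℕ) ∣ 2 ^ 5 * m ^ 3 := by exact_mod_cast h
    rcases (Nat.Prime.dvd_mul (below v).2).1 h7' with h8 | h8
    · exact hp2 ((Nat.prime_dvd_prime_iff_eq (below v).2 Nat.prime_two).1
        ((below v).2.dvd_of_dvd_pow h8))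
    · exact hpm ((below v).2.dvd_of_dvd_pow h8)) (𝓞 K ⧸ v.asIdeal)
  rw [hfin, ← pts_cubic m (𝓞 K ⧸ v.asIdeal), ← pts_cubic m (ZMod (below v : ℕ))] at e1
  unfold av tf
  rw [hcard]
  exact e1

/-- the factor in terms of the prime below -/
lemma factor_eq (m : ℕ) (v : HeightOneSpectrum (𝓞 K)) (s : ℂ) :
    factor (cZ m) s v = (1 - pw (tf m (below v) : ℂ) (pp m (below v)) (deg v) *
        (((below v : ℕ) : ℂ) ^ (-s)) ^ deg v +
      (pp m (below v)) ^ deg v * (((below v : ℕ) : ℂ) ^ (-s)) ^ (2 * deg v))⁻¹ := by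
  have hdeg : deg v ≠ 0 := (nm_eq v).2.1.ne'
  unfold factor
  rw [av_eq m, nm_cpow]
  by_cases hb : (((cZ m).Δ : ℤ) : 𝓞 K) ∈ v.asIdeal
  · have hpp : pp m (below v) = 0 := by
      unfold pp
      rw [if_pos ((mem_iff m v).1 hb)]
    rw [if_pos hb, hpp, zero_pow hdeg, zero_mul]
  · have hpp : pp m (below v) = ((below v : ℕ) : ℂ) := by
      unfold pp
      rw [if_neg (fun h => hb ((mem_iff m v).2 h))]
    have hpc : ((Ideal.absNorm v.asIdeal : ℕ) : ℂ) ^ (1 - 2 * s) =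
        (((below v : ℕ) : ℂ)) ^ deg v * (((below v : ℕ) : ℂ) ^ (-s)) ^ (2 * deg v) := by
      rw [nm_cpow, prime_cpow _ (below v).2.ne_zero, mul_pow, ← pow_mul]
    rw [if_neg hb, hpp, hpc]

/-- Hasse's bound -/
lemma av_bound (m : ℕ) (v : HeightOneSpectrum (𝓞 K)) (hv : (below v : ℕ) ≠ 2) :
    |((av (cZ m) v : ℤ) : ℝ)| ≤ 2 * Real.sqrt (nm v) := by
  have hmax : v.asIdeal.IsMaximal := v.isPrime.isMaximal v.ne_bot
  letI : Field (𝓞 K ⧸ v.asIdeal) := Ideal.Quotient.field v.asIdeal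
  have : Finite (𝓞 K ⧸ v.asIdeal) := Ideal.finiteQuotientOfFreeOfNeBot v.asIdeal v.ne_bot
  letI : Fintype (𝓞 K ⧸ v.asIdeal) := Fintype.ofFinite _
  have hch := charP_quot v
  have hE : ringChar (𝓞 K ⧸ v.asIdeal) ≠ 2 := by
    rw [ringChar.eq (𝓞 K ⧸ v.asIdeal) (below v : ℕ)]; exact hv
  have hcard : Ideal.absNorm v.asIdeal = Fintype.card (𝓞 K ⧸ v.asIdeal) := by
    rw [Ideal.absNorm_apply, Submodule.cardQuot_apply, Nat.card_eq_fintype_card]
  have h4 := pts_bound m (k := 𝓞 K ⧸ v.asIdeal) hE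
  unfold av nm
  rw [hcard]
  push_cast at h4 ⊢
  exact h4

open Classical in
/-- the part of the factor different from one -/
lemma factor_sub_bound (m : ℕ) (v : HeightOneSpectrum (𝓞 K)) (hv : (below v : ℕ) ≠ 2) (s : ℂ)
    (hs : 3 / 2 < s.re) (hsmall : (nm v : ℝ) ^ (-(s.re - 1 / 2)) ≤ 1 / 6) :
    ‖factor (cZ m) s v - 1‖ ≤ 6 * (nm v : ℝ) ^ (-(s.re - 1 / 2)) := by
  have hn0 : (0 : ℝ) < nm v := by
    have := two_le_nm v
    exact_mod_cast (by omega : 0 < nm v)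
  have hn1 : (1 : ℝ) ≤ nm v := by
    have := two_le_nm v
    exact_mod_cast (by omega : 1 ≤ nm v)
  have hb := av_bound m v hv
  unfold factor
  set t : ℤ := av (cZ m) v with ht
  set w : ℝ := (nm v : ℝ) ^ (-(s.re - 1 / 2)) with hw
  have e1 : ‖((Ideal.absNorm v.asIdeal : ℕ) : ℂ) ^ (-s)‖ = (nm v : ℝ) ^ (-s.re) := by
    have := Complex.norm_natCast_cpow_of_pos (n := nm v) (by exact_mod_cast hn0) (-s)
    rw [Complex.neg_re] at this
    exact this
  have e2 : ‖((Ideal.absNorm v.asIdeal : ℕ) : ℂ) ^ (1 - 2 * s)‖ = (nm v : ℝ) ^ (1 - 2 * s.re) := by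
    have := Complex.norm_natCast_cpow_of_pos (n := nm v) (by exact_mod_cast hn0) (1 - 2 * s)
    have h2 : (1 - 2 * s).re = 1 - 2 * s.re := by simp
    rw [h2] at this
    exact this
  set B : ℂ := (if (((cZ m).Δ : ℤ) : 𝓞 K) ∈ v.asIdeal then 0 else
    ((Ideal.absNorm v.asIdeal : ℕ) : ℂ) ^ (1 - 2 * s)) with hB
  set u : ℂ := -((t : ℂ) * ((Ideal.absNorm v.asIdeal : ℕ) : ℂ) ^ (-s)) + B with hu
  have hu1 : ‖u‖ ≤ 3 * w := by
    have h1 : ‖(t : ℂ) * ((Ideal.absNorm v.asIdeal : ℕ) : ℂ) ^ (-s)‖ ≤ 2 * w := by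
      rw [norm_mul, e1, Complex.norm_intCast]
      calc |(t : ℝ)| * (nm v : ℝ) ^ (-s.re) ≤ (2 * Real.sqrt (nm v)) * (nm v : ℝ) ^ (-s.re) :=
            mul_le_mul_of_nonneg_right hb (by positivity)
        _ = 2 * w := by
            rw [hw, Real.sqrt_eq_rpow, mul_assoc, ← Real.rpow_add hn0]
            congr 2
            ring
    have h2 : ‖B‖ ≤ w := by
      rw [hB]
      split_ifs
      · rw [norm_zero, hw]
        positivity
      · rw [e2, hw]
        apply Real.rpow_le_rpow_of_exponent_le hn1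
        linarith
    calc ‖u‖ ≤ ‖-((t : ℂ) * ((Ideal.absNorm v.asIdeal : ℕ) : ℂ) ^ (-s))‖ + _ := norm_add_le _ _
      _ ≤ 2 * w + w := add_le_add (by rwa [norm_neg]) h2
      _ = 3 * w := by ring
  have e3 : (1 - (t : ℂ) * ((Ideal.absNorm v.asIdeal : ℕ) : ℂ) ^ (-s) + B) = 1 + u := by
    rw [hu]; ring
  rw [e3]
  have hu2 : ‖u‖ ≤ 1 / 2 := by linarith
  have h3 : 1 / 2 ≤ ‖1 + u‖ := by
    have := norm_sub_norm_le (1 : ℂ) (-u)
    rw [sub_neg_eq_add, norm_neg, norm_one] at this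
    linarith
  have hne : 1 + u ≠ 0 := by
    intro h
    rw [h, norm_zero] at h3
    linarith
  have e4 : (1 + u)⁻¹ - 1 = -u / (1 + u) := by field_simp; ring
  rw [e4, norm_div, norm_neg, div_le_iff₀ (by linarith)]
  nlinarith [norm_nonneg u]

lemma multipliable_factor (m : ℕ) (s : ℂ) (hs : 3 / 2 < s.re) :
    Multipliable (factor (K := K) (cZ m) s) := by
  have hsum := nm_summable (K := K) (x := s.re - 1 / 2) (by linarith)
  have h1 : Summable (fun v : HeightOneSpectrum (𝓞 K) => ‖factor (cZ m) s v - 1‖) := by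
    refine Summable.of_norm_bounded_eventually (hsum.mul_left 6) ?_
    have h2 := hsum.tendsto_cofinite_zero.eventually (Iio_mem_nhds (by norm_num : (0 : ℝ) < 1 / 6))
    have h3 : ∀ᶠ v : HeightOneSpectrum (𝓞 K) in cofinite, ¬ ((below v : ℕ) : ℤ) ∣ 2 := by
      rw [Filter.eventually_cofinite]
      simp only [not_not]
      exact finite_bad _ (by norm_num)
    filter_upwards [h2, h3] with v hv hv3
    rw [norm_norm]
    exact factor_sub_bound m v (fun h => hv3 (by rw [h]; norm_num)) s hs (le_of_lt hv)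
  have h2 := multipliable_one_add_of_summable h1
  refine h2.congr (fun v => ?_)
  ring

end

section prod
variable (n : ℕ) [NeZero n] (L : Type) [Field L] [NumberField L] [IsCyclotomicExtension {n} ℚ L]
  (F : IntermediateField ℚ L)

/-- the Euler factor of the twist of `y² = x³ + 2 c x` by the primitive character -/
noncomputable def eul (c : ℕ) (χ : DirichletCharacter ℂ n) (s : ℂ) (p : ℕ) : ℂ :=
  (1 - (tf c p : ℂ) * pv n χ p * (p : ℂ) ^ (-s) + pp c p * pv n χ p ^ 2 * (p : ℂ) ^ (-2 * s))⁻¹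

open Classical in
/-- the Euler product over the subfield `F` of the cyclotomic field -/
theorem hasProd_K (c : ℕ) (G : DirichletCharacter ℂ n → ℂ → ℂ) (s : ℂ)
    (hs : 3 / 2 < s.re)
    (hG : ∀ χ ∈ YY n L F, HasProd (fun p : Nat.Primes => eul n c χ s p) (G χ s)) :
    HasProd (factor (K := F) (cZ c) s) (∏ χ : YY n L F, G χ s) := by
  have h1 : HasProd (fun p : Nat.Primes => ∏ χ : YY n L F, eul n c χ s p)
      (∏ χ : YY n L F, G χ s) := by
    apply hasProd_prod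
    intro χ _
    exact hG χ.1 χ.2
  have h2 : ∀ p : Nat.Primes, ∏ χ : YY n L F, eul n c χ s p =
      ∏ v : {v : HeightOneSpectrum (𝓞 F) // below v = p}, factor (cZ c) s v.1 := by
    intro p
    have h3 : ∀ v : {v : HeightOneSpectrum (𝓞 F) // below v = p}, factor (cZ c) s v.1 =
        (1 - pw (tf c p : ℂ) (pp c p) (deg v.1) * (((p : ℕ) : ℂ) ^ (-s)) ^ deg v.1 +
          pp c p ^ deg v.1 * (((p : ℕ) : ℂ) ^ (-s)) ^ (2 * deg v.1))⁻¹ := by
      rintro ⟨v, hv⟩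
      rw [factor_eq c v s, hv]
    rw [Finset.prod_congr rfl (fun v _ => h3 v), Finset.prod_inv_distrib,
      local_quad n L F p (tf c p : ℂ) (pp c p) (((p : ℕ) : ℂ) ^ (-s)), ← Finset.prod_inv_distrib]
    refine Finset.prod_congr rfl fun χ _ => ?_
    unfold eul
    congr 1
    have e1 : ((p : ℕ) : ℂ) ^ (-2 * s) = (((p : ℕ) : ℂ) ^ (-s)) ^ 2 := by
      rw [← Complex.cpow_nat_mul]
      congr 1
      push_cast
      ring
    rw [e1]
    ring
  simp_rw [h2] at h1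
  have h3 : Multipliable (factor (K := F) (cZ c) s) := multipliable_factor c s hs
  rw [← (Equiv.sigmaFiberEquiv (below (K := F))).hasProd_iff]
  refine HasProd.sigma_of_hasProd h1 (fun p => ?_) ?_
  · exact hasProd_fintype _
  · exact (Equiv.sigmaFiberEquiv (below (K := F))).multipliable_iff.2 h3

/-- the primitive character at the primes not dividing the level -/
lemma pv_eq (χ : DirichletCharacter ℂ n) {p : ℕ} (hp : p.Coprime n) :
    pv n χ p = χ ((p : ℕ) : ZMod n) := by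
  have h := χ.changeLevel_primitiveCharacter
  unfold pv
  conv_rhs => rw [← h]
  have hu : ((p : ℕ) : ZMod n) = ((ZMod.unitOfCoprime p hp : (ZMod n)ˣ) : ZMod n) := by
    rw [ZMod.coe_unitOfCoprime]
  rw [hu, DirichletCharacter.changeLevel_eq_cast_of_dvd _ χ.conductor_dvd_level]
  congr 1
  rw [ZMod.coe_unitOfCoprime, ZMod.cast_natCast χ.conductor_dvd_level]

end prod

lemma odd_of_adm {m : ℕ} (hm : Adm m) : Odd m := by
  rw [Nat.odd_iff]
  by_contra hc
  have h2 : 2 ∣ m := by omega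
  have h3 := hm.2 2 (Nat.mem_primeFactors.2 ⟨Nat.prime_two, h2, hm.1.ne_zero⟩)
  norm_num at h3

lemma adm_dvd {m e : ℕ} (hm : Adm m) (he : e ∣ m) : Adm e :=
  ⟨hm.1.squarefree_of_dvd he, fun p hp => hm.2 p (Nat.primeFactors_mono he hm.1.ne_zero hp)⟩

lemma adm_mod_four {m : ℕ} (hm : Adm m) : m % 4 = 1 := by
  rw [← Nat.prod_primeFactors_of_squarefree hm.1, Finset.prod_nat_mod,
    Finset.prod_congr rfl (fun p hp => hm.2 p hp), Finset.prod_const_one]
  rfl

/-- the count of the points of the quadratic twist -/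
lemma pts_twist (m e : ℕ) {k : Type} [Field k] [Fintype k] [DecidableEq k] (hk : ringChar k ≠ 2)
    (he : (e : k) ≠ 0) :
    (Fintype.card k : ℤ) - pts (cZ (m * e ^ 2)) k =
      quadraticChar k (e : k) * ((Fintype.card k : ℤ) - pts (cZ m) k) := by
  rw [pts_cubic m k, pts_cubic (m * e ^ 2) k,
    card_points hk (fun x : k => x ^ 3 + ((0 : ℤ) : k) * x ^ 2 + ((2 * m : ℤ) : k) * x +
      ((0 : ℤ) : k)),
    card_points hk (fun x : k => x ^ 3 + ((0 : ℤ) : k) * x ^ 2 +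
      ((2 * ((m * e ^ 2 : ℕ) : ℤ) : ℤ) : k) * x + ((0 : ℤ) : k))]
  have h1 : ∑ x : k, quadraticChar k (x ^ 3 + ((0 : ℤ) : k) * x ^ 2 +
      ((2 * ((m * e ^ 2 : ℕ) : ℤ) : ℤ) : k) * x + ((0 : ℤ) : k)) =
      ∑ x : k, quadraticChar k (e : k) * quadraticChar k (x ^ 3 + ((0 : ℤ) : k) * x ^ 2 +
        ((2 * m : ℤ) : k) * x + ((0 : ℤ) : k)) := by
    rw [← Equiv.sum_comp (Equiv.mulLeft₀ (e : k) he)]
    refine Finset.sum_congr rfl fun x _ => ?_
    show quadraticChar k (((e : k) * x) ^ 3 + ((0 : ℤ) : k) * ((e : k) * x) ^ 2 +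
      ((2 * ((m * e ^ 2 : ℕ) : ℤ) : ℤ) : k) * ((e : k) * x) + ((0 : ℤ) : k)) = _
    rw [← map_mul]
    have e1 : ((e : k) * x) ^ 3 + ((0 : ℤ) : k) * ((e : k) * x) ^ 2 +
        ((2 * ((m * e ^ 2 : ℕ) : ℤ) : ℤ) : k) * ((e : k) * x) + ((0 : ℤ) : k) =
        (e : k) ^ 2 * ((e : k) * (x ^ 3 + ((0 : ℤ) : k) * x ^ 2 + ((2 * m : ℤ) : k) * x +
          ((0 : ℤ) : k))) := by
      push_cast
      ring
    rw [e1, map_mul (quadraticChar k) ((e : k) ^ 2), quadraticChar_sq_one' he, one_mul]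
  rw [h1, ← Finset.mul_sum]
  ring

lemma prime_dvd_sq {m e p : ℕ} (he : e ∣ m) (hp : p.Prime) : p ∣ 2 * (m * e ^ 2) ↔ p ∣ 2 * m := by
  constructor
  · intro h
    rw [← mul_assoc] at h
    rcases (Nat.Prime.dvd_mul hp).1 h with h1 | h1
    · exact h1
    · exact ((hp.dvd_of_dvd_pow h1).trans he).mul_left 2
  · intro h
    rw [← mul_assoc]
    exact h.mul_right _

lemma tf_twist {m e p : ℕ} (hm : Adm m) (he : e ∣ m) (hp : p.Prime) (hb : ¬ p ∣ 2 * m) :
    tf (m * e ^ 2) p = jacobiSym (p : ℤ) e * tf m p := by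
  have hfp : Fact p.Prime := ⟨hp⟩
  have hp2 : p ≠ 2 := fun h => hb (by rw [h]; exact dvd_mul_right _ _)
  have hpe : ¬ p ∣ e := fun h => hb ((h.trans he).mul_left _)
  have he0 : ((e : ℕ) : ZMod p) ≠ 0 := fun h => hpe ((ZMod.natCast_eq_zero_iff _ _).1 h)
  have h1 := pts_twist m e (k := ZMod p) (by rw [ZMod.ringChar_zmod_n]; exact hp2) he0
  rw [ZMod.card] at h1
  unfold tf
  rw [h1]
  congr 1
  have h2 : jacobiSym (e : ℤ) p = quadraticChar (ZMod p) ((e : ℕ) : ZMod p) := by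
    rw [← jacobiSym.legendreSym.to_jacobiSym]
    unfold legendreSym
    rw [Int.cast_natCast]
  rw [← h2]
  exact jacobiSym.quadratic_reciprocity_one_mod_four (adm_mod_four (adm_dvd hm he))
    (hp.odd_of_ne_two hp2)

/-- the product of two quadratic characters -/
lemma jac_mul {m : ℕ} (hm : Squarefree m) {e d : ℕ} (he : e ∣ m) (hd : d ∣ m) :
    ∃ δ : ℕ, δ ∣ m ∧ ∀ a : ℕ, a.Coprime m →
      jacobiSym (a : ℤ) e * jacobiSym (a : ℤ) d = jacobiSym (a : ℤ) δ := by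
  have hm0 : m ≠ 0 := hm.ne_zero
  have he0 : e ≠ 0 := fun h => hm0 (Nat.eq_zero_of_zero_dvd (h ▸ he))
  have hd0 : d ≠ 0 := fun h => hm0 (Nat.eq_zero_of_zero_dvd (h ▸ hd))
  have hg : 0 < e.gcd d := Nat.gcd_pos_of_pos_left _ (Nat.pos_of_ne_zero he0)
  refine ⟨(e / e.gcd d) * (d / e.gcd d), ?_, fun a ha => ?_⟩
  · exact (Nat.coprime_div_gcd_div_gcd hg).mul_dvd_of_dvd_of_dvd
      ((Nat.div_dvd_of_dvd (Nat.gcd_dvd_left e d)).trans he)
      ((Nat.div_dvd_of_dvd (Nat.gcd_dvd_right e d)).trans hd)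
  · have e1 : e = (e / e.gcd d) * e.gcd d := (Nat.div_mul_cancel (Nat.gcd_dvd_left e d)).symm
    have e2 : d = (d / e.gcd d) * e.gcd d := (Nat.div_mul_cancel (Nat.gcd_dvd_right e d)).symm
    have hgm : e.gcd d ∣ m := (Nat.gcd_dvd_left e d).trans he
    have h1 : (jacobiSym (a : ℤ) (e.gcd d)) ^ 2 = 1 :=
      jacobiSym.sq_one (Int.isCoprime_iff_gcd_eq_one.1
        (Nat.isCoprime_iff_coprime.2 (Nat.Coprime.coprime_dvd_right hgm ha)))
    have hg0 : NeZero (e.gcd d) := ⟨hg.ne'⟩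
    have hea : NeZero (e / e.gcd d) := ⟨fun h => he0 (by rw [e1, h, zero_mul])⟩
    have hda : NeZero (d / e.gcd d) := ⟨fun h => hd0 (by rw [e2, h, zero_mul])⟩
    have e3 : jacobiSym (a : ℤ) e = jacobiSym (a : ℤ) (e / e.gcd d) * jacobiSym (a : ℤ) (e.gcd d) := by
      conv_lhs => rw [e1]
      exact jacobiSym.mul_right _ _ _
    have e4 : jacobiSym (a : ℤ) d = jacobiSym (a : ℤ) (d / e.gcd d) * jacobiSym (a : ℤ) (e.gcd d) := by
      conv_lhs => rw [e2]
      exact jacobiSym.mul_right _ _ _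
    rw [e3, e4, jacobiSym.mul_right (a : ℤ) (e / e.gcd d) (d / e.gcd d)]
    linear_combination (jacobiSym (a : ℤ) (e / e.gcd d) * jacobiSym (a : ℤ) (d / e.gcd d)) * h1

/-- **EK**, for the curve `y² = x³ + 2 m e² x` -/
theorem ek' : ∀ m : ℕ, Adm m → ∀ e : ℕ, e ∣ m → ∀ (M : Type) [Field M] [NumberField M]
    [IsCyclotomicExtension {m} ℚ M] (k : IntermediateField ℚ M),
    (∀ (σ : Gal(M/ℚ)), ∀ x ∈ k, σ (σ x) = x) →
    ∃ (ι : Type) (_ : Fintype ι) (δ : ι → ℕ), (∀ i, δ i ∣ m) ∧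
      ∀ (G : ℕ → ℂ → ℂ), (∀ d, d ∣ m → ∀ s : ℂ, (3 : ℝ) / 2 < s.re → HasProd (ef m d s) (G d s)) →
        ∀ s : ℂ, (3 : ℝ) / 2 < s.re →
          HasProd (factor (K := k) (cZ (m * e ^ 2)) s) (∏ i, G (δ i) s) := by
  classical
  intro m hm e he M _ _ _ k hk
  have hm0 : NeZero m := ⟨hm.1.ne_zero⟩
  have hG : IsGalois ℚ M := IsCyclotomicExtension.isGalois {m} ℚ M
  have hodd : Odd m := odd_of_adm hm
  -- the characters
  have hχ : ∀ χ : YY m M k, ∃ d : ℕ, d ∣ m ∧ ∀ (a : ℕ) (_ : a.Coprime m),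
      (jacobiSym (a : ℤ) e : ℂ) * χ.1 ((a : ℕ) : ZMod m) = (jacobiSym (a : ℤ) d : ℂ) := by
    intro χ
    have h1 : ∀ u : (ZMod m)ˣ, χ.1 (u : ZMod m) = 1 ∨ χ.1 (u : ZMod m) = -1 := by
      intro u
      set σ := (IsCyclotomicExtension.Rat.galEquivZMod m M).symm u with hσ
      have h2 : σ * σ ∈ k.fixingSubgroup := by
        rw [IntermediateField.mem_fixingSubgroup_iff]
        intro x hx
        exact hk σ x hx
      have h3 := (mem_YY m M k χ.1).1 χ.2 (σ * σ) h2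
      rw [map_mul, hσ, MulEquiv.apply_symm_apply, Units.val_mul, map_mul] at h3
      exact mul_self_eq_one_iff.1 h3
    obtain ⟨d, hd, h2⟩ := quad_char m hm.1 hodd
      ((χ.1 : MulChar (ZMod m) ℂ).toMonoidHom.comp (Units.coeHom (ZMod m))) h1
    obtain ⟨δ, hδ, h4⟩ := jac_mul hm.1 he hd
    refine ⟨δ, hδ, fun a ha => ?_⟩
    have h3 := h2 a ha
    rw [← h4 a ha]
    push_cast
    rw [← h3]
    show _ = _ * χ.1 ((ZMod.unitOfCoprime a ha : (ZMod m)ˣ) : ZMod m)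
    rw [ZMod.coe_unitOfCoprime]
  choose δ hδ hδ2 using hχ
  refine ⟨YY m M k, inferInstance, δ, hδ, fun G hG2 s hs => ?_⟩
  have key := hasProd_K m M k (m * e ^ 2)
    (fun χ s => if h : χ ∈ YY m M k then G (δ ⟨χ, h⟩) s else 0) s hs (fun χ hχ => ?_)
  · refine (congrArg (fun z => HasProd (factor (K := k) (cZ (m * e ^ 2)) s) z)
      (Finset.prod_congr rfl fun χ _ => ?_)).mp key
    exact dif_pos χ.2
  · simp only [dif_pos hχ]
    refine (congrArg (fun g => HasProd g (G (δ ⟨χ, hχ⟩) s)) (funext fun p => ?_)).mp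
      (hG2 (δ ⟨χ, hχ⟩) (hδ _) s hs)
    unfold ef eul
    by_cases hb : (p : ℕ) ∣ 2 * m
    · have hb2 : (p : ℕ) ∣ 2 * (m * e ^ 2) := (prime_dvd_sq he p.2).2 hb
      rw [if_pos hb, tf_bad p.2 hb2]
      unfold pp
      rw [if_pos hb2]
      simp
    · have hb2 : ¬ (p : ℕ) ∣ 2 * (m * e ^ 2) := fun h => hb ((prime_dvd_sq he p.2).1 h)
      have hpm : ¬ (p : ℕ) ∣ m := fun h => hb (h.mul_left _)
      have hco : (p : ℕ).Coprime m := (Nat.Prime.coprime_iff_not_dvd p.2).2 hpm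
      have hpc : (jacobiSym ((p : ℕ) : ℤ) e : ℂ) * pv m χ p =
          (jacobiSym ((p : ℕ) : ℤ) (δ ⟨χ, hχ⟩) : ℂ) := by
        rw [pv_eq m χ hco]
        exact hδ2 ⟨χ, hχ⟩ p hco
      have hj : ∀ d : ℕ, d ∣ m → ((jacobiSym ((p : ℕ) : ℤ) d : ℤ) : ℂ) ^ 2 = 1 := by
        intro d hd
        have h1 : IsCoprime ((p : ℕ) : ℤ) (d : ℤ) :=
          Nat.isCoprime_iff_coprime.2 (Nat.Coprime.coprime_dvd_right hd hco)
        have h2 := jacobiSym.sq_one (a := ((p : ℕ) : ℤ)) (b := d)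
          (Int.isCoprime_iff_gcd_eq_one.1 h1)
        exact_mod_cast h2
      have hj1 := hj e he
      have hj2 := hj _ (hδ ⟨χ, hχ⟩)
      have hv : (pv m χ p) ^ 2 = 1 := by
        rw [← hpc, mul_pow, hj1, one_mul] at hj2
        exact hj2
      rw [if_neg hb, ← hpc, tf_twist hm he p.2 hb]
      unfold pp tf
      rw [if_neg hb2, hv]
      have hp0 : ((p : ℕ) : ℂ) ≠ 0 := by exact_mod_cast p.2.ne_zero
      have e1 : ((p : ℕ) : ℂ) ^ (1 - 2 * s) = ((p : ℕ) : ℂ) * ((p : ℕ) : ℂ) ^ (-2 * s) := by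
        have : (1 - 2 * s : ℂ) = 1 + (-2 * s) := by ring
        rw [this, Complex.cpow_add _ _ hp0, Complex.cpow_one]
      rw [e1]
      push_cast
      ring

/-- **EK** -/
theorem ek : S_EK := by
  intro m hm M _ _ _ k hk
  have h := ek' m hm 1 (one_dvd m) M k hk
  rw [one_pow, mul_one] at h
  exact h

end Pool.Agent.D0H76.BKR
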