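import Pool.Agent.D0H76.BKR.Stm

/-!
Project BKR: transport of the Euler product along isomorphisms of number fields.  The transport of the
places is the code of `Pool/Agent/Y18/NF/Tr.lean`.
-/

set_option autoImplicit false

open NumberField IsDedekindDomain

namespace Pool.Agent.D0H76.BKR

section transport
variable {K K' : Type} [Field K] [NumberField K] [Field K'] [NumberField K']

/-- transport of places -/
noncomputable def plE (e : 𝓞 K ≃+* 𝓞 K') : HeightOneSpectrum (𝓞 K) ≃ HeightOneSpectrum (𝓞 K') where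
  toFun v := ⟨v.asIdeal.comap (e.symm : 𝓞 K' →+* 𝓞 K), by
    have := v.isPrime
    exact Ideal.comap_isPrime (e.symm : 𝓞 K' →+* 𝓞 K) v.asIdeal, by
    intro h
    apply v.ne_bot
    rw [eq_bot_iff]
    intro x hx
    have h1 : e x ∈ v.asIdeal.comap (e.symm : 𝓞 K' →+* 𝓞 K) := by
      rw [Ideal.mem_comap]
      show e.symm (e x) ∈ _
      rwa [e.symm_apply_apply]
    rw [h, Ideal.mem_bot] at h1
    rw [Ideal.mem_bot]
    exact e.injective (by rw [h1, map_zero])⟩
  invFun v := ⟨v.asIdeal.comap (e : 𝓞 K →+* 𝓞 K'), by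
    have := v.isPrime
    exact Ideal.comap_isPrime (e : 𝓞 K →+* 𝓞 K') v.asIdeal, by
    intro h
    apply v.ne_bot
    rw [eq_bot_iff]
    intro x hx
    have h1 : e.symm x ∈ v.asIdeal.comap (e : 𝓞 K →+* 𝓞 K') := by
      rw [Ideal.mem_comap]
      show e (e.symm x) ∈ _
      rwa [e.apply_symm_apply]
    rw [h, Ideal.mem_bot] at h1
    rw [Ideal.mem_bot]
    exact e.symm.injective (by rw [h1, map_zero])⟩
  left_inv v := by
    apply HeightOneSpectrum.ext
    ext x
    show e.symm (e x) ∈ v.asIdeal ↔ x ∈ v.asIdeal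
    rw [e.symm_apply_apply]
  right_inv v := by
    apply HeightOneSpectrum.ext
    ext x
    show e (e.symm x) ∈ v.asIdeal ↔ x ∈ v.asIdeal
    rw [e.apply_symm_apply]

lemma mem_plE (e : 𝓞 K ≃+* 𝓞 K') (v : HeightOneSpectrum (𝓞 K)) (x : 𝓞 K') :
    x ∈ (plE e v).asIdeal ↔ e.symm x ∈ v.asIdeal := Iff.rfl

/-- the isomorphism of the residue fields -/
noncomputable def resE (e : 𝓞 K ≃+* 𝓞 K') (v : HeightOneSpectrum (𝓞 K)) :
    (𝓞 K ⧸ v.asIdeal) ≃+* (𝓞 K' ⧸ (plE e v).asIdeal) :=
  Ideal.quotientEquiv v.asIdeal (plE e v).asIdeal e (by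
    symm
    exact Ideal.map_comap_of_equiv e)

lemma absNorm_plE (e : 𝓞 K ≃+* 𝓞 K') (v : HeightOneSpectrum (𝓞 K)) :
    Ideal.absNorm (plE e v).asIdeal = Ideal.absNorm v.asIdeal := by
  rw [Ideal.absNorm_apply, Ideal.absNorm_apply, Submodule.cardQuot_apply, Submodule.cardQuot_apply]
  exact (Nat.card_congr (resE e v).toEquiv).symm

lemma pts_congr (W : WeierstrassCurve ℤ) {R R' : Type} [CommRing R] [CommRing R'] (e : R ≃+* R') :
    pts W R = pts W R' := by
  unfold pts
  refine Nat.card_congr (Equiv.subtypeEquiv (Equiv.prodCongr e.toEquiv e.toEquiv) fun x => ?_)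
  have h : W.map (Int.castRingHom R') = (W.map (Int.castRingHom R)).map (e : R →+* R') := by
    rw [WeierstrassCurve.map_map]
    congr 1
    exact RingHom.ext_int _ _
  rw [h]
  exact (WeierstrassCurve.Affine.map_equation (W.map (Int.castRingHom R)).toAffine
    (f := (e : R →+* R')) e.injective x.1 x.2).symm

lemma av_plE (W : WeierstrassCurve ℤ) (e : 𝓞 K ≃+* 𝓞 K') (v : HeightOneSpectrum (𝓞 K)) :
    av W (plE e v) = av W v := by
  unfold av
  rw [absNorm_plE, pts_congr W (resE e v)]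

lemma factor_plE (W : WeierstrassCurve ℤ) (e : 𝓞 K ≃+* 𝓞 K') (s : ℂ) (v : HeightOneSpectrum (𝓞 K)) :
    factor W s (plE e v) = factor W s v := by
  unfold factor
  rw [absNorm_plE, av_plE]
  have h : ((W.Δ : ℤ) : 𝓞 K') ∈ (plE e v).asIdeal ↔ ((W.Δ : ℤ) : 𝓞 K) ∈ v.asIdeal := by
    rw [mem_plE, map_intCast]
  by_cases h1 : ((W.Δ : ℤ) : 𝓞 K) ∈ v.asIdeal
  · rw [if_pos h1, if_pos (h.2 h1)]
  · rw [if_neg h1, if_neg (fun h2 => h1 (h.1 h2))]

/-- transport of the Euler product -/
theorem hasProd_tr (W : WeierstrassCurve ℤ) (e : K ≃+* K') (s z : ℂ)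
    (h : HasProd (factor (K := K) W s) z) : HasProd (factor (K := K') W s) z := by
  rw [← (plE (NumberField.RingOfIntegers.mapRingEquiv e)).hasProd_iff]
  refine (congrArg (fun g => HasProd g z) (funext fun v => ?_)).mp h
  exact (factor_plE W (NumberField.RingOfIntegers.mapRingEquiv e) s v).symm

end transport

end Pool.Agent.D0H76.BKR
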