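import Pool.Agent.D0H76.BKR.Alg
import Pool.Agent.D0H76.BKR.Ek
import Pool.Agent.D0H76.BKR.Tra
import Pool.Agent.Y682.XD.EmbZ

/-!
Project BKR: the field `ℚ(√p : p ∣ m)`, its subfields and the Euler products over them.
-/

set_option autoImplicit false
set_option linter.unusedSectionVars false

open NumberField IsDedekindDomain
open Pool.Agent.D0H10.Q4 (Adm matQ cZ)

namespace Pool.Agent.D0H76.BKR

variable {m : ℕ} {F : Type} [Field F] [NumberField F]

/-- two embeddings which agree on the square roots agree -/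
lemma hom_ext (hF : IsMq m F) {L : Type} [Field L] [Algebra ℚ L] (f g : F →ₐ[ℚ] L)
    (h : ∀ (p : ℕ) (x : F), p ∈ m.primeFactors → x ^ 2 = (p : F) → f x = g x) (y : F) :
    f y = g y := by
  have h1 : IntermediateField.adjoin ℚ {x : F | ∃ p ∈ m.primeFactors, x ^ 2 = (p : F)} ≤
      (AlgHom.equalizer f g).toIntermediateField (fun x hx => by
        rw [AlgHom.mem_equalizer] at hx ⊢
        rw [map_inv₀, map_inv₀, hx]) := by
    rw [IntermediateField.adjoin_le_iff]
    rintro x ⟨p, hp, hx⟩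
    exact h p x hp hx
  rw [hF.gen] at h1
  exact h1 (IntermediateField.mem_top (x := y))

/-- the field is totally real -/
theorem IsMq.real (hF : IsMq m F) : IsTotallyReal F := by
  refine ⟨fun v => ?_⟩
  rw [InfinitePlace.isReal_iff, ComplexEmbedding.isReal_iff]
  refine RingHom.ext fun y => ?_
  refine hom_ext hF (ComplexEmbedding.conjugate v.embedding).toRatAlgHom
    v.embedding.toRatAlgHom (fun p x hp hx => ?_) y
  show (starRingEnd ℂ) (v.embedding x) = v.embedding x
  have h1 : v.embedding x ^ 2 = (p : ℂ) := by rw [← map_pow, hx, map_natCast]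
  have hp0 : (0 : ℝ) < p := by exact_mod_cast (Nat.prime_of_mem_primeFactors hp).pos
  rw [Complex.conj_eq_iff_im]
  have h2 := congrArg Complex.im h1
  have h3 := congrArg Complex.re h1
  rw [pow_two, Complex.mul_im, Complex.natCast_im] at h2
  rw [pow_two, Complex.mul_re, Complex.natCast_re] at h3
  by_contra hc
  have h4 : (v.embedding x).re = 0 := by
    have : (v.embedding x).re * (v.embedding x).im = 0 := by linarith
    exact (mul_eq_zero.1 this).resolve_right hc
  rw [h4] at h3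
  nlinarith [mul_self_nonneg (v.embedding x).im]

/-- the field is contained in the cyclotomic field -/
theorem exists_emb (h : Adm m) (hF : IsMq m F) (M : Type) [Field M] [NumberField M]
    [IsCyclotomicExtension {m} ℚ M] : Nonempty (F →ₐ[ℚ] M) := by
  have hm0 : NeZero m := ⟨h.1.ne_zero⟩
  refine IntermediateField.nonempty_algHom_of_adjoin_splits ?_ hF.gen
  rintro x ⟨p, hp, hx⟩
  have hint : IsIntegral ℚ x := Algebra.IsIntegral.isIntegral x
  refine ⟨hint, ?_⟩
  obtain ⟨g, hg⟩ := Pool.Agent.Y682.XD.sqrt_memZ m M (p : ℤ)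
    (Int.natCast_dvd_natCast.2 (Nat.dvd_of_mem_primeFactors hp)) (by
      have := h.2 p hp
      omega) (Int.squarefree_natCast.2 (Nat.prime_of_mem_primeFactors hp).squarefree)
  have h1 : minpoly ℚ x ∣ (Polynomial.X ^ 2 - Polynomial.C (p : ℚ)) := by
    apply minpoly.dvd
    rw [map_sub, map_pow, Polynomial.aeval_X, Polynomial.aeval_C, hx, map_natCast, sub_self]
  have h2 : (Polynomial.X ^ 2 - Polynomial.C (p : ℚ)).map (algebraMap ℚ M) =
      (Polynomial.X - Polynomial.C g) * (Polynomial.X - Polynomial.C (-g)) := by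
    rw [Polynomial.map_sub, Polynomial.map_pow, Polynomial.map_X, Polynomial.map_C, map_natCast]
    have : (p : M) = g ^ 2 := by rw [hg, Int.cast_natCast]
    rw [this, map_neg, map_pow]
    ring
  refine Polynomial.Splits.of_dvd ?_ ?_ (Polynomial.map_dvd (algebraMap ℚ M) h1)
  · rw [h2]
    exact (Polynomial.Splits.X_sub_C g).mul (Polynomial.Splits.X_sub_C (-g))
  · rw [h2]
    exact mul_ne_zero (Polynomial.X_sub_C_ne_zero g) (Polynomial.X_sub_C_ne_zero (-g))

/-- the automorphisms have order two on the image -/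
lemma map_sq (hF : IsMq m F) {M : Type} [Field M] [NumberField M] (φ : F →ₐ[ℚ] M)
    (k : IntermediateField ℚ F) (σ : Gal(M/ℚ)) (x : M) (hx : x ∈ k.map φ) : σ (σ x) = x := by
  obtain ⟨y, -, rfl⟩ := hx
  refine hom_ext hF ((σ.toAlgHom.comp σ.toAlgHom).comp φ) φ (fun p x hp hx => ?_) y
  show σ (σ (φ x)) = φ x
  have h1 : (φ x) ^ 2 = (p : M) := by rw [← map_pow, hx, map_natCast]
  have h2 : σ (φ x) ^ 2 = (φ x) ^ 2 := by rw [← map_pow, h1, map_natCast]
  rcases sq_eq_sq_iff_eq_or_eq_neg.1 h2 with h3 | h3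
  · rw [h3, h3]
  · rw [h3, map_neg, h3, neg_neg]

/-- the cyclotomic field, with the algebra structure over `ℚ` of a field -/
lemma cyc_inst {m : ℕ} (h : m ≠ 0) : ∃ _ : NumberField (CyclotomicField m ℚ),
    @IsCyclotomicExtension {m} ℚ (CyclotomicField m ℚ) _ _ DivisionRing.toRatAlgebra := by
  have hm0 : NeZero m := ⟨h⟩
  have hm1 : NeZero ((m : ℕ) : ℚ) := ⟨Nat.cast_ne_zero.2 h⟩
  have h1 := CyclotomicField.isCyclotomicExtension m ℚ
  have e : (DivisionRing.toRatAlgebra : Algebra ℚ (CyclotomicField m ℚ)) =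
    CyclotomicField.algebra m ℚ := Subsingleton.elim _ _
  have h2 : @IsCyclotomicExtension {m} ℚ (CyclotomicField m ℚ) _ _ DivisionRing.toRatAlgebra := by
    rw [e]
    exact h1
  exact ⟨IsCyclotomicExtension.numberField {m} ℚ (CyclotomicField m ℚ), h2⟩

/-- **the Euler product over the subfields** -/
theorem euler_sub (h : Adm m) (hF : IsMq m F) {e : ℕ} (he : e ∣ m) (k : IntermediateField ℚ F) :
    ∃ (ι : Type) (_ : Fintype ι) (δ : ι → ℕ), (∀ i, δ i ∣ m) ∧
      ∀ (G : ℕ → ℂ → ℂ), (∀ d, d ∣ m → ∀ s : ℂ, (3 : ℝ) / 2 < s.re → HasProd (ef m d s) (G d s)) →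
        ∀ s : ℂ, (3 : ℝ) / 2 < s.re →
          HasProd (factor (K := k) (cZ (m * e ^ 2)) s) (∏ i, G (δ i) s) := by
  have hm0 : NeZero m := ⟨h.1.ne_zero⟩
  obtain ⟨hnf, hcy⟩ := cyc_inst h.1.ne_zero
  obtain ⟨φ⟩ := exists_emb h hF (CyclotomicField m ℚ)
  obtain ⟨ι, hι, δ, h1, h2⟩ := ek' m h e he (CyclotomicField m ℚ) (k.map φ) (map_sq hF φ k)
  refine ⟨ι, hι, δ, h1, fun G hG s hs => ?_⟩
  exact hasProd_tr _ (IntermediateField.equivMap k φ).symm.toRingEquiv s _ (h2 G hG s hs)

end Pool.Agent.D0H76.BKR
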