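import Pool.Agent.D0H76.BKR.Deg
import Pool.Agent.D0H76.BKR.Fld
import Pool.Agent.D0H10.Q4.FinQ

/-!
Project BKR: the only point of `y² = x³ + 2 m e² x` over the field `ℚ(√p : p ∣ m)` is `(0, 0)`.
-/

set_option autoImplicit false
set_option linter.unusedSectionVars false

open WeierstrassCurve NumberField
open Pool.Agent.TH841.NF
open Pool.Agent.TH841.SH.D (Pt act)
open Pool.Agent.D0H10.Q4 (Adm matQ cZ)
open Pool.Agent.D0H10.Q4.Tor (dbl torQ)
open Pool.Agent.Y715.Z (q4 q4_eqn)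

namespace Pool.Agent.D0H76.BKR

section gen

variable {F : Type} [Field F] [NumberField F] {n : ℕ} {r : Fin n → F} {d : Fin n → ℚ}

/-- the square classes which become trivial -/
theorem sq_class (hr : ∀ i, r i ^ 2 = algebraMap ℚ F (d i)) (hd : ∀ i, d i ≠ 0)
    (hgen : IntermediateField.adjoin ℚ (Set.range r) = ⊤) {z : F} {q : ℚ} (hq : q ≠ 0)
    (hz : z ^ 2 = algebraMap ℚ F q) : ∃ (T : Finset (Fin n)) (u : ℚ), u ^ 2 = q * ∏ i ∈ T, d i := by
  classical
  have hG : IsGalois ℚ F := isGalois_of_gen hr hgen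
  have hz0 : z ≠ 0 := by
    rintro rfl
    rw [zero_pow two_ne_zero, eq_comm, map_eq_zero] at hz
    exact hq hz
  let c : Finset (Fin n) → ℤ := fun T => ∑ τ : F ≃ₐ[ℚ] F, sT r T τ * sgn z τ
  have hsum : ∑ T : Finset (Fin n), c T = 2 ^ n := by
    show ∑ T : Finset (Fin n), ∑ τ : F ≃ₐ[ℚ] F, sT r T τ * sgn z τ = _
    rw [Finset.sum_comm, Finset.sum_eq_single (1 : F ≃ₐ[ℚ] F)]
    · rw [← Finset.sum_mul, sum_one]
      unfold sgn
      rw [if_pos (AlgEquiv.one_apply _), mul_one]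
    · intro τ _ hτ
      rw [← Finset.sum_mul, sum_ne hgen hτ, zero_mul]
    · intro h
      exact absurd (Finset.mem_univ _) h
  obtain ⟨T, hT⟩ : ∃ T, c T ≠ 0 := by
    by_contra hc
    push Not at hc
    rw [Finset.sum_eq_zero fun T _ => hc T] at hsum
    exact absurd hsum.symm (pow_ne_zero n two_ne_zero)
  have hsg : ∀ σ : F ≃ₐ[ℚ] F, sT r T σ * sgn z σ = 1 := by
    intro σ
    have hmul : ∀ τ : F ≃ₐ[ℚ] F, sgn z (σ * τ) = sgn z σ * sgn z τ := by
      intro τ
      have h1 : (σ * τ) z = σ (τ z) := rfl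
      rw [sgn_spec hz (σ * τ), sgn_spec hz τ, map_mul, map_intCast, sgn_spec hz σ, ← mul_assoc] at h1
      have h2 := mul_right_cancel₀ hz0 h1
      have h3 : ((sgn z (σ * τ) : ℤ) : F) = ((sgn z σ * sgn z τ : ℤ) : F) := by
        rw [h2]; push_cast; ring
      exact_mod_cast h3
    have h2 : (sT r T σ * sgn z σ) * c T = c T := by
      show (sT r T σ * sgn z σ) * ∑ τ : F ≃ₐ[ℚ] F, sT r T τ * sgn z τ =
        ∑ τ : F ≃ₐ[ℚ] F, sT r T τ * sgn z τ
      rw [Finset.mul_sum]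
      refine Fintype.sum_equiv (Equiv.mulLeft σ) _ _ fun τ => ?_
      show _ = sT r T (σ * τ) * sgn z (σ * τ)
      rw [sT_mul hr hd, hmul]
      ring
    exact mul_right_cancel₀ hT (h2.trans (one_mul _).symm)
  have hfix : ∀ σ : F ≃ₐ[ℚ] F, σ (z * ∏ i ∈ T, r i) = z * ∏ i ∈ T, r i := by
    intro σ
    rw [map_mul, sgn_spec hz σ, sT_spec hr T σ]
    have h1 : ((sT r T σ * sgn z σ : ℤ) : F) = 1 := by rw [hsg σ, Int.cast_one]
    push_cast at h1
    linear_combination (z * ∏ i ∈ T, r i) * h1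
  obtain ⟨u, hu⟩ := IntermediateField.mem_bot.1 ((IsGalois.mem_bot_iff_fixed (F := ℚ) _).2 hfix)
  refine ⟨T, u, (algebraMap ℚ F).injective ?_⟩
  rw [map_pow, hu, mul_pow, hz, prod_sq' hr T, map_mul]

/-- the points over the multiquadratic field if the points over `ℚ` of the twists are of order two -/
theorem tors_F2 {E : WeierstrassCurve ℚ} (hr : ∀ i, r i ^ 2 = algebraMap ℚ F (d i)) (hd : ∀ i, d i ≠ 0)
    (hgen : IntermediateField.adjoin ℚ (Set.range r) = ⊤) (E1 : E.a₁ = 0) (E3 : E.a₃ = 0)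
    (h : ∀ T : Finset (Fin n), ∀ R : Pt (tw (∏ i ∈ T, d i) E) ℚ, 2 • R = 0)
    (P : Pt E F) : 2 ^ (n + 1) • P = 0 := by
  classical
  have hG : IsGalois ℚ F := isGalois_of_gen hr hgen
  -- the projections
  let A : Finset (Fin n) → Pt E F := fun T =>
    ∑ τ : F ≃ₐ[ℚ] F, sT r T τ • act E τ.toAlgHom P
  have hA : ∀ T, 2 • A T = 0 := by
    intro T
    have S := sc_tw E1 E3 (RingHom.id F) (prod_sq' hr T) (prod_ne hr hd T)
    have hfix : ∀ σ : F ≃ₐ[ℚ] F, act (tw (∏ i ∈ T, d i) E) σ.toAlgHom (tm S (A T)) = tm S (A T) := by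
      intro σ
      have h1 := tw_act S σ.toAlgHom (sT r T σ) (sT_pm T σ) (sT_spec hr T σ) (A T)
      rw [← h1]
      congr 1
      show sT r T σ • act E σ.toAlgHom (∑ τ : F ≃ₐ[ℚ] F, sT r T τ • act E τ.toAlgHom P) = _
      rw [map_sum, Finset.smul_sum]
      refine Fintype.sum_equiv (Equiv.mulLeft σ) _ _ fun τ => ?_
      rw [map_zsmul, smul_smul, act_act]
      show _ = sT r T (σ * τ) • act E (σ * τ).toAlgHom P
      rw [sT_mul hr hd]
      rfl
    obtain ⟨R, hR⟩ := exists_rat_fin _ hfix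
    refine tm_inj S ?_
    rw [map_nsmul, ← hR, ← map_nsmul, h T R, map_zero, map_zero]
  have hsum : ∑ T : Finset (Fin n), A T = (2 ^ n : ℕ) • P := by
    show ∑ T : Finset (Fin n), ∑ τ : F ≃ₐ[ℚ] F, sT r T τ • act E τ.toAlgHom P = _
    rw [Finset.sum_comm]
    have h1 : ∀ τ : F ≃ₐ[ℚ] F, ∑ T : Finset (Fin n), sT r T τ • act E τ.toAlgHom P =
        (∑ T : Finset (Fin n), sT r T τ) • act E τ.toAlgHom P := fun τ => (Finset.sum_smul).symm
    rw [Finset.sum_congr rfl fun τ _ => h1 τ, Finset.sum_eq_single (1 : F ≃ₐ[ℚ] F)]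
    · rw [sum_one]
      have h2 : act E ((1 : F ≃ₐ[ℚ] F).toAlgHom) P = P := act_id E _ (fun x => rfl) P
      rw [h2, ← natCast_zsmul]
      push_cast
      rfl
    · intro τ _ hτ
      rw [sum_ne hgen hτ, zero_smul]
    · intro h2
      exact absurd (Finset.mem_univ _) h2
  rw [pow_succ, mul_comm, mul_smul, ← hsum, Finset.smul_sum]
  exact Finset.sum_eq_zero fun T _ => hA T

end gen

variable {m : ℕ}

lemma Sup.odd {t : ℕ} (h : Adm m) (ht : Sup m t) : t % 2 = 1 := by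
  by_contra hc
  have h2 : 2 ∣ t := by omega
  have h3 := h.2 2 (Nat.mem_primeFactors.2 ⟨Nat.prime_two, ht.2 2 Nat.prime_two h2, h.1.ne_zero⟩)
  norm_num at h3

lemma two_of_card {G : Type} [AddCommGroup G] [Finite G]
    (h : Nat.card (AddCommGroup.torsion G) = 2) (R : G) : 2 • R = 0 := by
  have hR : R ∈ AddCommGroup.torsion G := isOfFinAddOrder_of_finite R
  have h1 := card_nsmul_eq_zero' (x := (⟨R, hR⟩ : AddCommGroup.torsion G))
  rw [h] at h1
  exact congrArg Subtype.val h1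

/-- the twists over `ℚ` have two points -/
theorem tw_two (h : Adm m) (hd : (matQ m).det ≠ 0) {e t : ℕ} (he : Sup m e) (ht : Sup m t)
    (R : Pt (tw (t : ℚ) (cR (m * e ^ 2))) ℚ) : 2 • R = 0 := by
  have hfin := tw_fin h hd he ht
  have hodd : (m * (e * t) ^ 2) % 2 = 1 := by
    have h1 := Sup.odd h (Sup.of_dvd h.1.ne_zero (dvd_refl m))
    have h2 := Sup.odd h (he.mul ht)
    exact Nat.odd_iff.1 ((Nat.odd_iff.2 h1).mul ((Nat.odd_iff.2 h2).pow))
  have e1 : (tw (t : ℚ) (cR (m * e ^ 2))).baseChange ℚ = Pool.Agent.D0H10.Q4.cQ (m * (e * t) ^ 2) := by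
    unfold WeierstrassCurve.baseChange
    rw [Algebra.algebraMap_self, WeierstrassCurve.map_id]
    unfold tw cR Pool.Agent.D0H10.Q4.cQ cZ
    simp only [WeierstrassCurve.map, eq_intCast]
    push_cast
    ext <;> simp
    ring
  letI : DecidableEq ℚ := Classical.decEq ℚ
  have key : ∀ W' : WeierstrassCurve ℚ, W' = Pool.Agent.D0H10.Q4.cQ (m * (e * t) ^ 2) →
      Finite W'.toAffine.Point → ∀ R : W'.toAffine.Point, 2 • R = 0 := by
    rintro _ rfl hf R
    exact two_of_card (torQ hodd) R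
  exact key _ e1 hfin R

section field

variable {F : Type} [Field F] [NumberField F]

/-- `2 m e²` is not a square in `F` -/
theorem no_sqrt (h : Adm m) (hF : IsMq m F) {e : ℕ} (he : Sup m e) (z : F) :
    z ^ 2 ≠ 2 * ((m * e ^ 2 : ℕ) : F) := by
  intro hz
  have hm1 := Sup.odd h (Sup.of_dvd h.1.ne_zero (dvd_refl m))
  have hN0 : ((2 * (m * e ^ 2) : ℕ) : ℚ) ≠ 0 :=
    Nat.cast_ne_zero.2 (mul_ne_zero two_ne_zero (mul_ne_zero h.1.ne_zero (pow_ne_zero 2 he.1)))
  have hz' : z ^ 2 = algebraMap ℚ F ((2 * (m * e ^ 2) : ℕ) : ℚ) := by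
    rw [map_natCast, hz]
    push_cast
    ring
  obtain ⟨T, u, hu⟩ := sq_class (rt_sq hF) (fun i => pr_ne i) (rt_gen hF) hN0 hz'
  obtain ⟨t, ht, ht2⟩ := prod_pr h.1 T
  rw [ht2] at hu
  have h1 : IsSquare ((2 * (m * e ^ 2) * t : ℕ) : ℚ) := ⟨u, by rw [← pow_two, hu]; push_cast; ring⟩
  rw [Rat.isSquare_natCast_iff] at h1
  obtain ⟨s, hs⟩ := h1
  have hodd : (m * e ^ 2 * t) % 2 = 1 := by
    have h2 := Sup.odd h he
    have h3 := Sup.odd h (Sup.of_dvd h.1.ne_zero ht)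
    exact Nat.odd_iff.1 (((Nat.odd_iff.2 hm1).mul ((Nat.odd_iff.2 h2).pow)).mul (Nat.odd_iff.2 h3))
  have h2 : 2 ∣ s := by
    have h3 : 2 ∣ s * s := by
      rw [← hs]
      exact ⟨m * e ^ 2 * t, by ring⟩
    rcases (Nat.Prime.dvd_mul Nat.prime_two).1 h3 with h4 | h4 <;> exact h4
  obtain ⟨w, rfl⟩ := h2
  have h3 : m * e ^ 2 * t = 2 * (w * w) := by
    have : 2 * (m * e ^ 2 * t) = 2 * (2 * (w * w)) := by
      rw [← mul_assoc, ← mul_assoc] at hs ⊢
      linarith
    exact Nat.eq_of_mul_eq_mul_left two_pos this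
  omega

/-- `-2 m e²` is not a square in `F` -/
theorem no_sqrt_neg (h : Adm m) (hF : IsTotallyReal F) {e : ℕ} (he : Sup m e) (z : F) :
    z ^ 2 ≠ -(2 * ((m * e ^ 2 : ℕ) : F)) := by
  intro hz
  obtain ⟨v⟩ : Nonempty (InfinitePlace F) := inferInstance
  have hv := hF.isReal v
  have h1 := congrArg (InfinitePlace.embedding_of_isReal hv) hz
  rw [map_pow, map_neg, map_mul, map_ofNat, map_natCast] at h1
  have h2 : (0 : ℝ) < ((m * e ^ 2 : ℕ) : ℝ) :=
    Nat.cast_pos.2 (Nat.pos_of_ne_zero (mul_ne_zero h.1.ne_zero (pow_ne_zero 2 he.1)))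
  nlinarith [sq_nonneg (InfinitePlace.embedding_of_isReal hv z)]

/-- all points over `F` are killed by `2 ^ (n + 1)` -/
theorem pts_F (h : Adm m) (hd : (matQ m).det ≠ 0) (hF : IsMq m F) {e : ℕ} (he : Sup m e)
    (P : Pt (cR (m * e ^ 2)) F) : 2 ^ (m.primeFactors.card + 1) • P = 0 := by
  refine tors_F2 (rt_sq hF) (fun i => pr_ne i) (rt_gen hF) ?_ ?_ (fun T R => ?_) P
  · show ((0 : ℤ) : ℚ) = 0
    exact Int.cast_zero
  · show ((0 : ℤ) : ℚ) = 0
    exact Int.cast_zero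
  · obtain ⟨t, ht, ht2⟩ := prod_pr h.1 T
    have key : ∀ a : ℚ, a = (t : ℚ) → ∀ R : Pt (tw a (cR (m * e ^ 2))) ℚ, 2 • R = 0 := by
      rintro _ rfl R
      exact tw_two h hd he (Sup.of_dvd h.1.ne_zero ht) R
    exact key _ ht2 R

end field

section grp

variable {F : Type} [Field F] [DecidableEq F]

/-- a group of points killed by a power of two, with one element of order two which is not divisible -/
theorem two_pts {D : F} (h2 : (2 : F) ≠ 0) (hD : D ≠ 0) (hs : ∀ z : F, z ^ 2 ≠ D)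
    (hs' : ∀ z : F, z ^ 2 ≠ -D) (n : ℕ) (P : (q4 D).toAffine.Point) (hP : 2 ^ n • P = 0) :
    P = 0 ∨ ∃ h, P = .some 0 0 h := by
  induction n generalizing P with
  | zero => left; rwa [pow_zero, one_smul] at hP
  | succ n ih =>
    have h1 : 2 ^ n • (P + P) = 0 := by
      rw [← two_smul ℕ P, smul_smul, ← pow_succ]
      exact hP
    rcases P with _ | ⟨x, y, hxy⟩
    · exact Or.inl rfl
    · right
      have he : y ^ 2 = x ^ 3 + D * x := q4_eqn.1 hxy.1
      by_cases hy : y = 0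
      · subst hy
        have h3 : x * (x ^ 2 + D) = 0 := by linear_combination -he
        rcases mul_eq_zero.1 h3 with h4 | h4
        · subst h4
          exact ⟨hxy, rfl⟩
        · exact absurd (eq_neg_of_add_eq_zero_left h4) (hs' x)
      · exfalso
        obtain ⟨x', y', h', e1, e2⟩ := dbl h2 hxy hy
        rcases ih _ h1 with h5 | ⟨h6, h5⟩
        · rw [e1] at h5
          exact Affine.Point.some_ne_zero h' h5
        · rw [e1] at h5
          have h7 : x' = 0 := by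
            simp only [Affine.Point.some.injEq] at h5
            exact h5.1
          rw [h7, zero_mul] at e2
          have h8 : x ^ 2 - D = 0 := (pow_eq_zero_iff two_ne_zero).1 e2.symm
          exact hs x (sub_eq_zero.1 h8)

end grp

section final

variable {F : Type} [Field F] [NumberField F]

/-- **the only point of `y² = x³ + 2 m e² x` over `F` is `(0, 0)`** -/
theorem only_zero (h : Adm m) (hd : (matQ m).det ≠ 0) (hF : IsMq m F) {e : ℕ} (he : Sup m e)
    (x y : F) (hxy : y ^ 2 = x ^ 3 + 2 * ((m * e ^ 2 : ℕ) : F) * x) : x = 0 := by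
  have h2 : (2 : F) ≠ 0 := two_ne_zero
  set D : F := 2 * ((m * e ^ 2 : ℕ) : F) with hD
  have hD0 : D ≠ 0 := mul_ne_zero h2
    (Nat.cast_ne_zero.2 (mul_ne_zero h.1.ne_zero (pow_ne_zero 2 he.1)))
  have hΔ : (q4 D).Δ ≠ 0 := by
    rw [Pool.Agent.Y715.Z.q4_Δ]
    have e : (-64 : F) = -(2 ^ 6) := by norm_num
    rw [e]
    exact mul_ne_zero (neg_ne_zero.2 (pow_ne_zero 6 h2)) (pow_ne_zero 3 hD0)
  have hns : (q4 D).toAffine.Nonsingular x y := by
    rw [← WeierstrassCurve.Affine.equation_iff_nonsingular_of_Δ_ne_zero hΔ, q4_eqn]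
    exact hxy
  letI : DecidableEq F := Classical.decEq F
  have e1 : (cR (m * e ^ 2)).baseChange F = q4 D := by
    unfold WeierstrassCurve.baseChange cR Pool.Agent.D0H10.Q4.cQ cZ q4
    simp only [WeierstrassCurve.map, eq_intCast]
    push_cast
    ext <;> simp [hD]
  have key : ∀ W' : WeierstrassCurve F, q4 D = W' →
      (∀ P : W'.toAffine.Point, 2 ^ (m.primeFactors.card + 1) • P = 0) →
      ∀ P : (q4 D).toAffine.Point, 2 ^ (m.primeFactors.card + 1) • P = 0 := by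
    rintro _ rfl h3 P
    exact h3 P
  have h4 := key _ e1.symm (pts_F h hd hF he)
  rcases two_pts h2 hD0 (no_sqrt h hF he) (no_sqrt_neg h hF.real he) _
    (Affine.Point.some x y hns) (h4 _) with h5 | ⟨h6, h5⟩
  · exact absurd h5 (Affine.Point.some_ne_zero hns)
  · simp only [Affine.Point.some.injEq] at h5
    exact h5.1

end final

end Pool.Agent.D0H76.BKR
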