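import Pool.Agent.D0H10.Q4.Eul
import Pool.Agent.D0H10.Q4.Kval
import Pool.Agent.D0H76.BKR.Stm
import Pool.Agent.Y698.Re

/-!
Project BKR: the `L`-functions of the quadratic twists of `y² = x³ + 2 m x` by the divisors of `m`.
-/

set_option autoImplicit false
set_option linter.unusedSectionVars false

open NumberField IsDedekindDomain

namespace Pool.Agent.D0H76.BKR

open Pool.Agent.D0H69.Q4
open Pool.Agent.Y699 hiding q4
open H385 (ZI RQ im1 nrm)
open Pool.Agent.W164.RC (tc_mul tc_star Ip Ip_spec Ip_one Ip_three dg local_poly local_two ep_hecke)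
open Pool.Agent.H304R3.HK (tc HC LH bH psi psi_apply uh_psi goodH bb ee UH tc_star_mul tc_ne_zero)
open Pool.Agent.H304R2.EC.A1 (prim)
open Pool.Agent.D0H10.Q4 (S_SUP S_QLS S_HEC S_LIM S_BET S_GID S_CRI Cc rh cQ cZ Adm matQ lv dD dq NL
  cg_unit)
open Pool.Agent.D0H10.Q4.Eul (fH_bad)

lemma Adm.of_dvd {m d : ℕ} (h : Adm m) (hd : d ∣ m) : Adm d :=
  ⟨h.1.squarefree_of_dvd hd, fun p hp => h.2 p (Nat.primeFactors_mono hd h.1.ne_zero hp)⟩

lemma Adm.mod4 {d : ℕ} (h : Adm d) : d % 4 = 1 := Pool.Agent.D0H69.Q4.Adm.mod h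

open Classical in
/-- the exponents -/
noncomputable def ed (m d : ℕ) (i : {π : ZI // π ∈ PD (m : ZI)}) : ℕ := if i.1 ∣ (d : ZI) then 3 else 1

lemma ed_odd (m d : ℕ) (i : {π : ZI // π ∈ PD (m : ZI)}) : ed m d i % 2 = 1 := by
  unfold ed
  split_ifs <;> norm_num

lemma fe_three {π : ZI} (h : PP π) (a : ZI) : fe π 3 a = fe π 1 a * (qr π a : ZI) := by
  unfold fe
  split_ifs with h1
  · rw [zero_mul]
  · rw [← q4_sq h]
    ring

lemma natne {n : ℕ} (h : n ≠ 0) : (n : ZI) ≠ 0 := Nat.cast_ne_zero.2 h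

/-- the twisted symbol -/
lemma c4_ed {m d : ℕ} (hm : m ≠ 0) (hdm : d ∣ m) (a : ZI) :
    c4 (fam (m : ZI)) Finset.univ (ed m d) a =
      c4 (fam (m : ZI)) Finset.univ on1 a * (jac (d : ZI) a : ZI) := by
  classical
  have hd0 : d ≠ 0 := fun h0 => hm (Nat.eq_zero_of_zero_dvd (h0 ▸ hdm))
  have hp := fam_PF (natne hm)
  have e1 : ∀ i : {π : ZI // π ∈ PD (m : ZI)}, fe (fam (m : ZI) i) (ed m d i) a =
      fe (fam (m : ZI) i) (on1 i) a * (if i.1 ∣ (d : ZI) then (qr i.1 a : ZI) else 1) := by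
    intro i
    unfold ed
    split_ifs with h1
    · exact fe_three (hp.pp i) a
    · rw [mul_one]
  unfold c4
  rw [Finset.prod_congr rfl fun i _ => e1 i, Finset.prod_mul_distrib]
  congr 1
  have e2 : PD (d : ZI) = (PD (m : ZI)).filter (fun π => π ∣ (d : ZI)) := by
    ext π
    rw [Finset.mem_filter, mem_PD (natne hd0), mem_PD (natne hm)]
    constructor
    · rintro ⟨h1, h2⟩
      exact ⟨⟨h1, h2.trans (by exact_mod_cast Nat.cast_dvd_cast hdm)⟩, h2⟩
    · rintro ⟨⟨h1, -⟩, h2⟩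
      exact ⟨h1, h2⟩
  unfold jac
  rw [e2, Finset.prod_filter]
  push_cast
  rw [← Finset.prod_coe_sort (PD (m : ZI)) (fun π => if π ∣ (d : ZI) then ((qr π a : ℤ) : ZI) else 1)]

lemma jac_neg {n : ZI} (hn : n ≠ 0) (a : ZI) : jac n (-a) = jac n a := by
  unfold jac
  exact Finset.prod_congr rfl fun π hπ => qr_neg ((mem_PD hn).1 hπ).1 a

lemma PS_of_PP {z : ZI} (hz : PP z) : PS z := ⟨hz.prm, hz.pr.irreducible.squarefree⟩

lemma tc_cast (n : ℤ) : tc (n : ZI) = (n : ℂ) := by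
  unfold tc
  simp

/-- the twisted character at the primary primes -/
theorem X_tw {m d : ℕ} (hm : m ≠ 0) (hdm : d ∣ m) (hPd : PS (d : ZI)) {X X₁ : ZI →* ℂ}
    (H : HC (8 * (m : ZI)) X) (H₁ : HC (8 * (m : ZI)) X₁)
    (hX : ∀ a, Cc a → X a = (starRingEnd ℂ) (tc (rh a * c4 (fam (m : ZI)) Finset.univ (ed m d) a)))
    (hX₁ : ∀ a, Cc a → X₁ a = (starRingEnd ℂ) (tc (rh a * c4 (fam (m : ZI)) Finset.univ on1 a)))
    {z : ZI} (hz : PP z) : X z = X₁ z * (qr z (d : ZI) : ℂ) := by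
  have hd0 : d ≠ 0 := fun h0 => hm (Nat.eq_zero_of_zero_dvd (h0 ▸ hdm))
  have key : ∀ a, Cc a → X a = X₁ a * (jac (d : ZI) a : ℂ) := by
    intro a ha
    rw [hX a ha, hX₁ a ha, c4_ed hm hdm, ← mul_assoc, tc_mul, map_mul, tc_cast, map_intCast]
  have hj : jac (d : ZI) z = qr z (d : ZI) := by
    rw [jac_rec hPd (PS_of_PP hz), jac_prime hz]
  have h1 := hz.re_odd
  have h2 := hz.im_even
  rw [← hj]
  by_cases h4 : z.re % 4 = 1
  · exact key z ⟨h4, h2⟩
  · have h6 : Cc (-z) := by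
      constructor
      · show (-z.re) % 4 = 1
        omega
      · show (-z.im) % 2 = 0
        omega
    have h7 := key (-z) h6
    rw [HC.neg H, HC.neg H₁, jac_neg (natne hd0)] at h7
    linear_combination -h7

lemma cnf_pts (m : ℕ) (p : ℕ) [Fact p.Prime] :
    pts (cZ m) (ZMod p) = cnf (ZMod p) ((2 * m : ℤ) : ZMod p) := by
  unfold pts cnf
  refine Nat.card_congr (Equiv.subtypeEquivRight fun x => ?_)
  rw [WeierstrassCurve.Affine.equation_iff]
  unfold cZ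
  simp only [WeierstrassCurve.map, eq_intCast]
  push_cast
  constructor
  · intro h
    linear_combination h
  · intro h
    linear_combination h

/-- the factor at a good prime -/
theorem fH_tw (hS : S_SUP) {m d : ℕ} (hm : Adm m) (hdm : d ∣ m) {X X₁ : ZI →* ℂ}
    (H : HC (8 * (m : ZI)) X) (H₁ : HC (8 * (m : ZI)) X₁)
    (hX : ∀ z, PP z → X z = X₁ z * (qr z (d : ZI) : ℂ))
    (hX₁ : ∀ a, Cc a → X₁ a =
      (starRingEnd ℂ) (tc (rh a * c4 (fam (m : ZI)) Finset.univ on1 a)))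
    (s : ℂ) {p : Nat.Primes} (h2 : (p : ℕ) ≠ 2) (hpm : ¬ (p : ℕ) ∣ m) [Fact (p : ℕ).Prime] :
    fH X s p = (1 - ((p : ℕ) - (cnf (ZMod (p : ℕ)) ((2 * m : ℤ) : ZMod (p : ℕ)) : ℂ)) *
      (jacobiSym (p : ℕ) d : ℂ) *
      ((p : ℕ) : ℂ) ^ (-s) + ((p : ℕ) : ℂ) * (((p : ℕ) : ℂ) ^ (-s)) ^ 2)⁻¹ := by
  have hps := ps_nat hm
  have hp := p.2
  have hcard : Nat.card (ZMod (p : ℕ)) = p := Nat.card_zmod p
  have hdA : Adm d := Adm.of_dvd hm hdm
  have hd4 := Adm.mod4 hdA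
  have hnd : ∀ z ∈ Ip p, ¬ z ∣ (m : ZI) := by
    intro z hz h
    rw [← Int.cast_natCast m, ip_nat_dvd hp hz] at h
    exact hpm (by exact_mod_cast h)
  have hpd : ¬ (p : ℕ) ∣ d := fun h => hpm (h.trans hdm)
  have hnd2 : ∀ z ∈ Ip p, ¬ z ∣ ((2 * m : ℤ) : ZI) := by
    intro z hz h
    rw [ip_nat_dvd hp hz] at h
    have hpi := Nat.prime_iff_prime_int.1 hp
    rcases hpi.dvd_or_dvd h with h3 | h3
    · have h6 : (p : ℕ) ∣ 2 := by exact_mod_cast h3
      exact h2 ((Nat.prime_dvd_prime_iff_eq hp Nat.prime_two).1 h6)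
    · exact hpm (by exact_mod_cast h3)
  have hcst : ((2 * m : ℤ) : ZI) = 2 * (m : ZI) := by push_cast; rfl
  have h4 : (p : ℕ) % 4 = 1 ∨ (p : ℕ) % 4 = 3 := by
    rcases hp.eq_two_or_odd with h | h
    · exact absurd h h2
    · omega
  have hpo : Odd (p : ℕ) := by
    rcases hp.eq_two_or_odd with h | h
    · exact absurd h h2
    · exact Nat.odd_iff.2 h
  rcases h4 with h1 | h3
  · obtain ⟨x, hxm, hxp, hxx, hn, hI⟩ := Ip_one hp h1
    have hxI : x ∈ Ip p := by rw [hI]; simp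
    have hxI' : star x ∈ Ip p := by rw [hI]; simp
    have hPx : PP x := PP_ip hp hxI
    have hc := congrArg tc (cnf_one (k := ZMod (p : ℕ)) hPx hn hcard (2 * m)
      (hnd2 x hxI))
    rw [hcst, tc_int, tc_add, tc_mul, tc_mul, tc_star, tc_star] at hc
    have hX1 := X_prime hS jj hps H₁ hX₁ hPx (hnd x hxI)
    have hX2 := X_prime hS jj hps H₁ hX₁ hPx.star (hnd _ hxI')
    have hq : Pool.Agent.Y699.q4 (star x) (-(2 * (m : ZI))) =
        star (Pool.Agent.Y699.q4 x (-(2 * (m : ZI)))) := by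
      rw [← q4_star hPx]
      congr 1
      rw [star_neg, star_mul, star_natCast, star_ofNat, mul_comm]
    rw [hq, tc_star, Complex.conj_conj] at hX2
    set q := Pool.Agent.Y699.q4 x (-(2 * (m : ZI))) with hqd
    have hq1 : tc q * (starRingEnd ℂ) (tc q) = 1 := by
      rw [← tc_star, ← tc_mul, unit_star_mul (q4_norm hPx ?_), tc_one]
      rw [dvd_neg, ← hcst]
      exact hnd2 x hxI
    have hx1 : tc x * (starRingEnd ℂ) (tc x) = ((p : ℕ) : ℂ) := by
      rw [← tc_star, ← tc_mul, hxx]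
      unfold tc
      simp
    have hnx : x.norm = (p : ℕ) := by rw [← nrm_cast, hn]
    have hnx' : (star x).norm = (p : ℕ) := by
      have h5 := nrm_cast (star x)
      rw [nrm_star, hn] at h5
      exact h5.symm
    have hj : legendreSym (p : ℕ) ((d : ℕ) : ℤ) = jacobiSym (p : ℕ) d := by
      rw [jacobiSym.legendreSym.to_jacobiSym]
      exact jacobiSym.quadratic_reciprocity_one_mod_four hd4 hpo
    have e1 : qr x (d : ZI) = jacobiSym (p : ℕ) d := by
      have h5 := qr_int hPx hnx ((d : ℕ) : ℤ)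
      rw [← hj, ← h5, Int.cast_natCast]
    have e2 : qr (star x) (d : ZI) = jacobiSym (p : ℕ) d := by
      have h5 := qr_int hPx.star hnx' ((d : ℕ) : ℤ)
      rw [← hj, ← h5, Int.cast_natCast]
    have hε : ((jacobiSym (p : ℕ) d : ℤ) : ℂ) * ((jacobiSym (p : ℕ) d : ℤ) : ℂ) = 1 := by
      have h5 : ¬ x ∣ (d : ZI) := by
        intro h6
        apply hnd x hxI
        exact h6.trans (by exact_mod_cast Nat.cast_dvd_cast hdm)
      have h6 := qr_sq h5
      rw [e1] at h6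
      exact_mod_cast h6
    rw [fH_odd H s h2, hI, Finset.prod_insert (by simpa using hxm), Finset.prod_singleton,
      hX x hPx, hX (star x) hPx.star, e1, e2,
      hX1, hX2, nrm_star, hn, tc_star]
    set ε : ℂ := ((jacobiSym (p : ℕ) d : ℤ) : ℂ) with hεd
    congr 1
    push_cast at hc ⊢
    linear_combination (((((p : ℕ) : ℂ) ^ (-s)) ^ 2) * ((p : ℕ) : ℂ)) * hq1 +
      (((((p : ℕ) : ℂ) ^ (-s)) ^ 2) * tc q * (starRingEnd ℂ) (tc q)) * hx1 +
      ε * (((p : ℕ) : ℂ) ^ (-s)) * hc +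
      (tc q * (starRingEnd ℂ) (tc q) * (tc x * (starRingEnd ℂ) (tc x)) *
        (((p : ℕ) : ℂ) ^ (-s)) ^ 2) * hε
  · have hI := Ip_three h3
    have hxI : -((p : ℕ) : ZI) ∈ Ip p := by rw [hI]; simp
    have hPx : PP (-((p : ℕ) : ZI)) := PP_ip hp hxI
    have hc : cnf (ZMod (p : ℕ)) ((2 * m : ℤ) : ZMod (p : ℕ)) = p := by
      rw [cnf_three (by rw [hcard]; exact h3), hcard]
    have hq : Pool.Agent.Y699.q4 (-((p : ℕ) : ZI)) (-(2 * (m : ZI))) = 1 := by
      have h5 := Rp_rat hp (m := -(2 * m)) (by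
        intro h
        rw [dvd_neg] at h
        exact hnd2 _ hxI ((ip_nat_dvd hp hxI _).2 h))
      unfold Rp at h5
      rw [hI, Finset.prod_singleton] at h5
      rw [← h5]
      congr 1
      push_cast
      rfl
    have hqd : qr (-((p : ℕ) : ZI)) (d : ZI) = 1 := by
      have h5 := Rp_rat hp (m := d) (by
        intro h
        exact hpd (by exact_mod_cast h))
      unfold Rp at h5
      rw [hI, Finset.prod_singleton] at h5
      have h6 := q4_sq hPx (d : ZI)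
      have h7 : Pool.Agent.Y699.q4 (-((p : ℕ) : ZI)) (d : ZI) = 1 := by
        rw [← h5]
        congr 1
      rw [h7, one_pow] at h6
      exact_mod_cast h6.symm
    have hX1 := X_prime hS jj hps H₁ hX₁ hPx (hnd _ hxI)
    rw [hq, tc_one, map_one] at hX1
    rw [fH_odd H s h2, hI, Finset.prod_singleton, hX _ hPx, hqd, hX1, hc, nrm_inert]
    congr 1
    have h7 : tc (-((p : ℕ) : ZI)) = -((p : ℕ) : ℂ) := by
      unfold tc
      simp
    rw [h7]
    have h8 : ((((p : ℕ) * (p : ℕ) : ℕ)) : ℂ) ^ (-s) = (((p : ℕ) : ℂ) ^ (-s)) ^ 2 := by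
      rw [Nat.cast_mul, Complex.natCast_mul_natCast_cpow, sq]
    rw [h8]
    push_cast
    ring

/-- the Euler product -/
theorem euler_tw (hS : S_SUP) {m d : ℕ} (hm : Adm m) (hdm : d ∣ m) {X X₁ : ZI →* ℂ}
    (H : HC (8 * (m : ZI)) X) (H₁ : HC (8 * (m : ZI)) X₁)
    (hX : ∀ z, PP z → X z = X₁ z * (qr z (d : ZI) : ℂ))
    (hX₁ : ∀ a, Cc a → X₁ a =
      (starRingEnd ℂ) (tc (rh a * c4 (fam (m : ZI)) Finset.univ on1 a)))
    (s : ℂ) (hs : (3 : ℝ) / 2 < s.re) : HasProd (ef m d s) (LH X (s - 1 / 2)) := by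
  obtain ⟨A, hA, hgood⟩ := goodH
  have hre : 1 < (s - 1 / 2).re := by
    have : (s - 1 / 2).re = s.re - 1 / 2 := by simp
    rw [this]; linarith
  have h3 := ep_hecke (uh_psi _ _ H) (s - 1 / 2) _ ((hgood _ _ H).2.1 _ hre)
  have key : ∀ p : Nat.Primes, ef m d s p = fH X s p := by
    intro p
    have hpp : Fact (p : ℕ).Prime := ⟨p.2⟩
    unfold ef
    by_cases hb : (p : ℕ) = 2 ∨ (p : ℕ) ∣ m
    · rw [fH_bad H s hb, if_pos]
      rcases hb with h | h
      · rw [h]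
        exact dvd_mul_right _ _
      · exact h.mul_left _
    · push Not at hb
      obtain ⟨h2, hpm⟩ := hb
      rw [if_neg, fH_tw hS hm hdm H H₁ hX hX₁ s h2 hpm, cnf_pts]
      · have hp0 : ((p : ℕ) : ℂ) ≠ 0 := by exact_mod_cast p.2.ne_zero
        have e1 : ((p : ℕ) : ℂ) ^ (1 - 2 * s) = ((p : ℕ) : ℂ) * (((p : ℕ) : ℂ) ^ (-s)) ^ 2 := by
          have : (1 - 2 * s : ℂ) = 1 + ((2 : ℕ) : ℂ) * (-s) := by push_cast; ring
          rw [this, Complex.cpow_add _ _ hp0, Complex.cpow_one, Complex.cpow_nat_mul]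
        rw [e1]
      · intro h
        rcases (Nat.Prime.dvd_mul p.2).1 h with h5 | h5
        · exact h2 ((Nat.prime_dvd_prime_iff_eq p.2 Nat.prime_two).1 h5)
        · exact hpm h5
  have h6 : ef m d s = fun p : Nat.Primes => fH X s p := funext key
  rw [h6]
  exact h3

lemma exists_val2 (h : ∀ (Γ : Type) [LinearOrderedCommGroupWithZero Γ] (v : Valuation ℂ Γ),
    ¬ v 2 < 1) : False := by
  obtain ⟨m, hm, hi⟩ := Pool.Agent.Y698.int_of_val (x := 1 / 2) fun Γ _ v hv => absurd hv (h Γ v)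
  have e : (m : ℂ) * (1 / 2) = algebraMap ℚ ℂ ((m : ℚ) / 2) := by
    rw [map_div₀, map_intCast, map_ofNat]
    ring
  rw [e, isIntegral_algebraMap_iff (algebraMap ℚ ℂ).injective] at hi
  obtain ⟨y, hy⟩ := (IsIntegrallyClosed.isIntegral_iff (R := ℤ) (K := ℚ)).1 hi
  have h1 : (m : ℚ) = ((2 * y : ℤ) : ℚ) := by
    have h2 : (y : ℚ) = (m : ℚ) / 2 := hy
    push_cast
    rw [h2]
    ring
  have h3 : m = 2 * y := by exact_mod_cast h1
  obtain ⟨k, hk⟩ := hm
  omega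

/-- **TWL** -/
theorem twl_of (hS : S_SUP) (hhec : S_HEC) (hlim : S_LIM) (hbet : S_BET)
    (hcri : S_CRI) : S_TWL := by
  intro m hm hdet d hdm
  have hm0 : m ≠ 0 := hm.1.ne_zero
  obtain ⟨hΔ, -, hcr⟩ := hcri m hm
  have hPd := (hcri d (Adm.of_dvd hm hdm)).1
  have hp := fam_PF hΔ.ne
  have hdD : dD (m : ZI) = 1 := hcr.2 hdet
  obtain ⟨X₁, h1, h2, -⟩ := hhec _ (fam (m : ZI)) hp Finset.univ on1 (fun _ _ => by norm_num)
  obtain ⟨X, h3, h4, h5⟩ := hhec _ (fam (m : ZI)) hp Finset.univ (ed m d) (fun i _ => by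
    have := ed_odd m d i
    omega)
  rw [hΔ.DD] at h1 h3
  refine ⟨fun s => LH X (s - 1 / 2), ?_, ?_, fun s hs => euler_tw hS hm hdm h3 h1
    (fun z hz => X_tw hm0 hdm hPd h3 h1 h4 h2 hz) h2 s hs⟩
  · obtain ⟨A, hA, hgood⟩ := goodH
    exact (hgood _ _ h3).1.comp (differentiable_id.sub_const _)
  · intro h0
    obtain ⟨L, Ω, σ, h⟩ := Pool.Agent.D0H10.Q4.nl
    have h6 := h5 _ (hlim L Ω σ h _ (fam (m : ZI)) hp Finset.univ (ed m d))
    have e0 : (1 : ℂ) - 1 / 2 = 1 / 2 := by norm_num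
    have h7 : LH X (1 / 2) = 0 := by
      rw [← e0]
      exact h0
    rw [h7, eq_comm, map_eq_zero] at h6
    refine exists_val2 fun Γ _ v hv => ?_
    have h8 := hbet L Ω σ h Γ v hv _ (fam (m : ZI)) hp Finset.univ (ed m d)
      (fun i _ => ed_odd m d i)
    have h9 := (cg_unit h8).2.2 hdD
    rw [h6, zero_div, map_zero] at h9
    exact zero_ne_one h9

end Pool.Agent.D0H76.BKR
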